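import Mathlib

set_option autoImplicit false
set_option linter.unusedSectionVars false
open scoped InnerProductSpace ENNReal NNReal Topology

namespace Pool.Agent.Helper526.Sch

universe u v

variable {ι : Type v} {H : Type u} [NormedAddCommGroup H] [InnerProductSpace ℂ H] [CompleteSpace H]

/-! Functional calculus on eigenvectors -/

lemma mem_spectrum_of_eigen {N : H →L[ℂ] H} {v : H} {lam : ℝ} (hv : v ≠ 0)
    (h : N v = (lam : ℂ) • v) : lam ∈ spectrum ℝ N := by
  rw [spectrum.mem_iff]
  intro hu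
  obtain ⟨u, hu⟩ := hu
  have h1 : (u : H →L[ℂ] H) v = 0 := by
    rw [hu]
    simp [h, Algebra.algebraMap_eq_smul_one]
  have h2 : ((u⁻¹ : (H →L[ℂ] H)ˣ) : H →L[ℂ] H) ((u : H →L[ℂ] H) v) = v := by
    rw [← ContinuousLinearMap.mul_apply]
    simp
  rw [h1, map_zero] at h2
  exact hv h2.symm

lemma cfc_apply_eigen {N : H →L[ℂ] H} (hN : IsSelfAdjoint N) {v : H} {lam : ℝ}
    (h : N v = (lam : ℂ) • v) (f : ℝ → ℝ) (hf : ContinuousOn f (spectrum ℝ N)) :
    cfc f N v = ((f lam : ℝ) : ℂ) • v := by
  by_cases hv : v = 0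
  · simp [hv]
  have hmem := mem_spectrum_of_eigen hv h
  have key : ∀ g : C(spectrum ℝ N, ℝ), cfcHom hN g v = ((g ⟨lam, hmem⟩ : ℝ) : ℂ) • v := by
    intro g
    induction g using ContinuousMap.induction_on_of_compact with
    | const r =>
      have : (ContinuousMap.const (spectrum ℝ N) r) = algebraMap ℝ C(spectrum ℝ N, ℝ) r := rfl
      rw [this, AlgHomClass.commutes]
      simp [Algebra.algebraMap_eq_smul_one]
    | id =>
      rw [cfcHom_id hN, h]
      simp
    | star_id =>
      rw [map_star, cfcHom_id hN, hN.star_eq, h]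
      simp
    | add f g hf hg =>
      rw [map_add, ContinuousLinearMap.add_apply, hf, hg]
      simp [add_smul]
    | mul f g hf hg =>
      rw [map_mul, ContinuousLinearMap.mul_apply, hg, map_smul, hf, smul_smul]
      congr 1
      simp [mul_comm]
    | frequently f hf =>
      have hc1 : Continuous fun g : C(spectrum ℝ N, ℝ) => cfcHom hN g v :=
        (ContinuousLinearMap.apply ℂ H v).continuous.comp (cfcHom_continuous hN)
      have hc2 : Continuous fun g : C(spectrum ℝ N, ℝ) => ((g ⟨lam, hmem⟩ : ℝ) : ℂ) • v := by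
        have : Continuous fun g : C(spectrum ℝ N, ℝ) => g ⟨lam, hmem⟩ :=
          ContinuousEvalConst.continuous_eval_const _
        fun_prop
      have hcl : IsClosed {g : C(spectrum ℝ N, ℝ) | cfcHom hN g v = ((g ⟨lam, hmem⟩ : ℝ) : ℂ) • v} :=
        isClosed_eq hc1 hc2
      exact hcl.mem_of_frequently_of_tendsto hf Filter.tendsto_id
  rw [cfc_apply f N hN hf, key]
  rfl

/-! Eigenbases of compact self-adjoint operators -/

lemma exists_eigenbasis {N : H →L[ℂ] H} (hc : IsCompactOperator N) (hN : IsSelfAdjoint N) :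
    ∃ (κ : Type u) (v : HilbertBasis κ ℂ H) (lam : κ → ℝ), ∀ k, N (v k) = ((lam k : ℝ) : ℂ) • v k := by
  classical
  have hsymm : (N : H →ₗ[ℂ] H).IsSymmetric := hN.isSymmetric
  have hbot := ContinuousLinearMap.orthogonalComplement_iSup_eigenspaces_eq_bot hc hsymm
  let V : ℂ → Submodule ℂ H := fun μ => Module.End.eigenspace (N : Module.End ℂ H) μ
  have hcompl : ∀ μ, CompleteSpace (V μ) := by
    intro μ
    have : IsClosed (V μ : Set H) := by
      have : (V μ : Set H) = {x | N x = μ • x} := by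
        ext x
        simp [V, Module.End.mem_eigenspace_iff]
      rw [this]
      exact isClosed_eq N.continuous (by fun_prop)
    exact this.completeSpace_coe
  have hex : ∀ μ, ∃ (w : Set (V μ)) (b : HilbertBasis w ℂ (V μ)), ⇑b = ((↑) : w → V μ) :=
    fun μ => exists_hilbertBasis ℂ (V μ)
  choose w b hb using hex
  have hof := hsymm.orthogonalFamily_eigenspaces
  have hon : Orthonormal ℂ (fun a : Σ μ : ℂ, (w μ) => ((b a.1 a.2 : V a.1) : H)) :=
    hof.orthonormal_sigma_orthonormal (fun μ => (b μ).orthonormal)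
  have hsp : (Submodule.span ℂ (Set.range (fun a : Σ μ : ℂ, (w μ) => ((b a.1 a.2 : V a.1) : H))))ᗮ = ⊥ := by
    rw [eq_bot_iff]
    intro x hx
    have hx' : x ∈ (⨆ μ, V μ)ᗮ := by
      rw [Submodule.mem_orthogonal]
      intro u hu
      induction hu using Submodule.iSup_induction' with
      | mem μ y hy =>
        have h1 := ((b μ).hasSum_repr ⟨y, hy⟩)
        have h2 := (h1.mapL (V μ).subtypeL).mapL (innerSL ℂ x)
        have h5 : ∀ k, (innerSL ℂ x) ((V μ).subtypeL ((b μ).repr ⟨y, hy⟩ k • b μ k)) = 0 := by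
          intro k
          have : ⟪x, ((b μ k : V μ) : H)⟫_ℂ = 0 :=
            (Submodule.mem_orthogonal' _ _).1 hx _ (Submodule.subset_span ⟨⟨μ, k⟩, rfl⟩)
          simp [this]
        simp only [h5] at h2
        have h6 := h2.unique hasSum_zero
        rw [← inner_conj_symm]
        have h7 : ⟪x, y⟫_ℂ = 0 := by simpa using h6
        rw [h7, map_zero]
      | zero => simp
      | add y z _ _ hy hz => rw [inner_add_left, hy, hz, add_zero]
    have : x ∈ (⊥ : Submodule ℂ H) := by
      rw [← hbot]; exact hx'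
    exact this
  let B := HilbertBasis.mkOfOrthogonalEqBot hon hsp
  have hBcoe : ⇑B = (fun a : Σ μ : ℂ, (w μ) => ((b a.1 a.2 : V a.1) : H)) :=
    HilbertBasis.coe_mkOfOrthogonalEqBot _ _
  refine ⟨Σ μ : ℂ, (w μ), B, fun a => a.1.re, ?_⟩
  intro a
  have h1 : N (B a) = a.1 • B a := by
    have : (B a) = ((b a.1 a.2 : V a.1) : H) := by rw [hBcoe]
    rw [this]
    exact Module.End.mem_eigenspace_iff.1 (b a.1 a.2 : V a.1).2
  have h2 : B a ≠ 0 := by
    intro h0
    have := B.orthonormal.1 a
    rw [h0, norm_zero] at this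
    exact zero_ne_one this
  have h3 : (starRingEnd ℂ) a.1 = a.1 := by
    apply hsymm.conj_eigenvalue_eq_self
    exact Module.End.hasEigenvalue_of_hasEigenvector (x := B a)
      ⟨Module.End.mem_eigenspace_iff.2 h1, h2⟩
  rw [h1]
  congr 1
  exact (Complex.conj_eq_iff_re.1 h3).symm

end Pool.Agent.Helper526.Sch
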