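import Pool.Agent.Helper526.Sch.McCarthy

set_option autoImplicit false
set_option linter.unusedSectionVars false
open scoped InnerProductSpace ENNReal NNReal Topology

namespace Pool.Agent.Helper526.Sch

universe u v w w'

variable {ι : Type v} {κ : Type w} {κ' : Type w'} {H : Type u} [NormedAddCommGroup H]
  [InnerProductSpace ℂ H] [CompleteSpace H]

/-! Homogeneity, zero, sums -/

lemma trAbsPow_smul (b : HilbertBasis ι ℂ H) {X : H →L[ℂ] H}
    (hX : IsCompactOperator (star X * X)) {p : ℝ} (hp : 0 < p) (c : ℂ) :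
    trAbsPow b p (c • X) = ENNReal.ofReal (‖c‖ ^ p) * trAbsPow b p X := by
  obtain ⟨κ, v, lam, hv⟩ := exists_eigenbasis' hX
  have hv' : ∀ k, (star (c • X) * (c • X)) (v k) = ((‖c‖ ^ 2 * lam k : ℝ) : ℂ) • v k := by
    intro k
    have : star (c • X) * (c • X) = ((‖c‖ ^ 2 : ℝ) : ℂ) • (star X * X) := by
      rw [star_smul, smul_mul_smul_comm]
      congr 1
      have := Complex.normSq_eq_conj_mul_self (z := c)
      rw [Complex.normSq_eq_norm_sq] at this
      rw [this]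
      rfl
    rw [this, ContinuousLinearMap.smul_apply, hv k, smul_smul]
    push_cast
    rfl
  rw [trAbsPow_eq b v hv hp, trAbsPow_eq b v hv' hp, ← ENNReal.tsum_mul_left]
  congr 1
  funext k
  have hlam : 0 ≤ lam k := by rw [eigen_nonneg v hv k]; positivity
  rw [← ENNReal.ofReal_mul (by positivity), Real.mul_rpow (by positivity) hlam,
    rpow_two_mul_half (norm_nonneg _)]

lemma trAbsPow_zero (b : HilbertBasis ι ℂ H) {p : ℝ} (hp : 0 < p) :
    trAbsPow b p (0 : H →L[ℂ] H) = 0 := by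
  have hv : ∀ k, (star (0 : H →L[ℂ] H) * 0) (b k) = ((0 : ℝ) : ℂ) • b k := by
    intro k
    simp
  rw [trAbsPow_eq b b (lam := fun _ => 0) hv hp]
  simp [Real.zero_rpow (show p / 2 ≠ 0 by positivity)]

lemma trAbsPow_add_lt_top (b : HilbertBasis ι ℂ H) {X Y : H →L[ℂ] H} (hX : IsCompactOperator X)
    (hY : IsCompactOperator Y) {p : ℝ} (hp : 0 < p) (hXf : trAbsPow b p X < ∞)
    (hYf : trAbsPow b p Y < ∞) : trAbsPow b p (X + Y) < ∞ := by
  rcases le_total p 2 with h | h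
  · have h1 := mccarthy_le b (CptPair.of_compact hX hY) hp h
    have h2 : 2 * (trAbsPow b p X + trAbsPow b p Y) < ∞ :=
      ENNReal.mul_lt_top (by norm_num) (ENNReal.add_lt_top.2 ⟨hXf, hYf⟩)
    exact lt_of_le_of_lt le_self_add (lt_of_le_of_lt h1 h2)
  · have hc : IsCompactOperator ((1 / 2 : ℂ) • (X + Y)) := (hX.add hY).smul (1 / 2 : ℂ)
    have hd : IsCompactOperator ((1 / 2 : ℂ) • (X - Y)) := (hX.sub hY).smul (1 / 2 : ℂ)
    have h1 := mccarthy_ge b (CptPair.of_compact hc hd) h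
    have e1 : (1 / 2 : ℂ) • (X + Y) + (1 / 2 : ℂ) • (X - Y) = X := by
      rw [← smul_add]
      have : X + Y + (X - Y) = (2 : ℂ) • X := by rw [two_smul]; abel
      rw [this, smul_smul]; norm_num
    have e2 : (1 / 2 : ℂ) • (X + Y) - (1 / 2 : ℂ) • (X - Y) = Y := by
      rw [← smul_sub]
      have : X + Y - (X - Y) = (2 : ℂ) • Y := by rw [two_smul]; abel
      rw [this, smul_smul]; norm_num
    rw [e1, e2] at h1
    have h2 : trAbsPow b p ((1 / 2 : ℂ) • (X + Y)) < ∞ := by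
      refine lt_of_le_of_lt (le_trans ?_ h1) (ENNReal.add_lt_top.2 ⟨hXf, hYf⟩)
      calc trAbsPow b p ((1 / 2 : ℂ) • (X + Y))
          ≤ trAbsPow b p ((1 / 2 : ℂ) • (X + Y)) + trAbsPow b p ((1 / 2 : ℂ) • (X - Y)) :=
            le_self_add
        _ = 1 * (trAbsPow b p ((1 / 2 : ℂ) • (X + Y)) + trAbsPow b p ((1 / 2 : ℂ) • (X - Y))) := by
            rw [one_mul]
        _ ≤ _ := by gcongr; norm_num
    have e3 : X + Y = (2 : ℂ) • ((1 / 2 : ℂ) • (X + Y)) := by
      rw [smul_smul]; norm_num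
    rw [e3, trAbsPow_smul b (Cpt.of_compact hc).1 hp]
    exact ENNReal.mul_lt_top ENNReal.ofReal_lt_top h2

/-- `c` is a compact operator with `tr (c* c)^{p/2} < ∞`. -/
def IsSchatten (b : HilbertBasis ι ℂ H) (p : ℝ) (c : H →L[ℂ] H) : Prop :=
  IsCompactOperator c ∧ trAbsPow b p c < ∞

lemma schatten_add_mem (b : HilbertBasis ι ℂ H) {p : ℝ} (hp : 0 < p) {x y : H →L[ℂ] H}
    (hx : IsSchatten b p x) (hy : IsSchatten b p y) : IsSchatten b p (x + y) :=
  ⟨hx.1.add hy.1, trAbsPow_add_lt_top b hx.1 hy.1 hp hx.2 hy.2⟩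

lemma schatten_zero_mem (b : HilbertBasis ι ℂ H) {p : ℝ} (hp : 0 < p) :
    IsSchatten b p (0 : H →L[ℂ] H) :=
  ⟨isCompactOperator_zero, by rw [trAbsPow_zero b hp]; simp⟩

lemma schatten_smul_mem (b : HilbertBasis ι ℂ H) {p : ℝ} (hp : 0 < p) (c : ℂ) {x : H →L[ℂ] H}
    (hx : IsSchatten b p x) : IsSchatten b p (c • x) :=
  ⟨hx.1.smul c, by
    rw [trAbsPow_smul b (Cpt.of_compact hx.1).1 hp]
    exact ENNReal.mul_lt_top ENNReal.ofReal_lt_top hx.2⟩

/-- The operators of Schatten class as an additive submonoid. -/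
noncomputable def schattenMonoid (b : HilbertBasis ι ℂ H) (p : ℝ) (hp : 0 < p) :
    AddSubmonoid (H →L[ℂ] H) where
  carrier := setOf (IsSchatten b p)
  add_mem' := schatten_add_mem b hp
  zero_mem' := schatten_zero_mem b hp

/-- The Schatten–von Neumann class `𝔖_p(H)`: compact operators `c` with `tr (c* c)^{p/2} < ∞`. -/
noncomputable def schattenSubmodule (b : HilbertBasis ι ℂ H) (p : ℝ) (hp : 0 < p) :
    Submodule ℂ (H →L[ℂ] H) where
  toAddSubmonoid := schattenMonoid b p hp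
  smul_mem' := fun c _ => schatten_smul_mem b hp c

/-- The Schatten–von Neumann class `𝔖_p(H)`, as a type. -/
def SchattenClass (b : HilbertBasis ι ℂ H) (p : ℝ) (hp : 0 < p) : Type u :=
  schattenSubmodule b p hp

section Sp

variable {b : HilbertBasis ι ℂ H} {p : ℝ} {hp : 0 < p}

noncomputable instance instACG : AddCommGroup (SchattenClass b p hp) :=
  inferInstanceAs (AddCommGroup (schattenSubmodule b p hp))

noncomputable instance instMod : Module ℂ (SchattenClass b p hp) :=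
  inferInstanceAs (Module ℂ (schattenSubmodule b p hp))

/-- The operator on `H` underlying an element of `𝔖_p(H)`. -/
def op (x : SchattenClass b p hp) : H →L[ℂ] H := x.1

/-- An element of `𝔖_p(H)` from a compact operator with `tr (c* c)^{p/2} < ∞`. -/
def mkS (hp : 0 < p) (c : H →L[ℂ] H) (hc : IsCompactOperator c) (hf : trAbsPow b p c < ∞) :
    SchattenClass b p hp := ⟨c, hc, hf⟩

lemma op_mkS (hp : 0 < p) (c : H →L[ℂ] H) (hc : IsCompactOperator c) (hf : trAbsPow b p c < ∞) :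
    op (mkS hp c hc hf) = c := rfl

lemma op_compact (x : SchattenClass b p hp) : IsCompactOperator (op x) := x.2.1

lemma op_fin (x : SchattenClass b p hp) : trAbsPow b p (op x) < ∞ := x.2.2

lemma op_add (x y : SchattenClass b p hp) : op (x + y) = op x + op y := rfl

lemma op_sub (x y : SchattenClass b p hp) : op (x - y) = op x - op y := rfl

lemma op_smul (c : ℂ) (x : SchattenClass b p hp) : op (c • x) = c • op x := rfl

lemma op_injective : Function.Injective (op : SchattenClass b p hp → (H →L[ℂ] H)) :=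
  Subtype.val_injective

end Sp

/-- The Schatten norm `‖c‖_p = (tr (c* c)^{p/2})^{1/p}`. -/
noncomputable def schattenNorm (b : HilbertBasis ι ℂ H) (p : ℝ) (c : H →L[ℂ] H) : ℝ :=
  (trAbsPow b p c).toReal ^ (1 / p)

/-! The lower bound `∑ |⟪f_i, X e_i⟫|^p ≤ tr |X|^p` -/

lemma orthonormal_sum_ofReal_le {α : Type*} [Fintype α] {e : α → H} (he : Orthonormal ℂ e) (x : H) :
    ∑ i, ENNReal.ofReal (‖⟪x, e i⟫_ℂ‖ ^ 2) ≤ ENNReal.ofReal (‖x‖ ^ 2) := by
  rw [← ENNReal.ofReal_sum_of_nonneg (fun _ _ => by positivity)]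
  apply ENNReal.ofReal_le_ofReal
  have := he.sum_inner_products_le (s := Finset.univ) x
  refine le_trans (le_of_eq ?_) this
  refine Finset.sum_congr rfl fun i _ => ?_
  rw [← inner_conj_symm, RCLike.norm_conj]

lemma single_bound (v : HilbertBasis κ ℂ H) {X : H →L[ℂ] H} {lam : κ → ℝ}
    (hv : ∀ k, (star X * X) (v k) = ((lam k : ℝ) : ℂ) • v k) {p : ℝ} (hp : 1 ≤ p) {e f : H}
    (he : ‖e‖ = 1) (hf : ‖f‖ = 1) :
    ∃ A : ℝ, HasSum (fun k => ‖⟪v k, e⟫_ℂ‖ ^ 2 * lam k ^ (p / 2)) A ∧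
      ‖⟪f, X e⟫_ℂ‖ ^ p ≤ (A + SF v lam (p / 2) X f) / 2 := by
  have hlam : ∀ k, 0 ≤ lam k := fun k => by rw [eigen_nonneg v hv k]; positivity
  have hXG : ∀ z, ‖X z‖ ^ 2 ≤ RCLike.re ⟪z, (star X * X) z⟫_ℂ := fun z =>
    (re_inner_star_mul X z).ge
  obtain ⟨W, hW, hW1, hm, hS⟩ := SF_weights v hv hlam (le_norm_sq v hv) hXG (q := p / 2)
    (by linarith) hf
  have hA := hasSum_pow v hv (q := p / 2) (by linarith) e
  refine ⟨_, hA, ?_⟩
  have h1 := hasSum_sq v e
  rw [he, one_pow] at h1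
  -- the weights
  have hw := (h1.add hW).mul_right (1 / 2 : ℝ)
  have hwS := (hA.add hS).mul_right (1 / 2 : ℝ)
  set wt : κ → ℝ := fun k => (‖⟪v k, e⟫_ℂ‖ ^ 2 + ‖⟪X (v k), f⟫_ℂ‖ ^ 2 / lam k) * (1 / 2) with hwt
  have hwt0 : ∀ k, 0 ≤ wt k := fun k => by
    have := hlam k
    positivity
  set s : κ → ℝ := fun k => Real.sqrt (lam k) with hs
  have hsum : Summable fun k => wt k * s k := by
    refine Summable.of_nonneg_of_le (fun k => mul_nonneg (hwt0 k) (Real.sqrt_nonneg _))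
      (fun k => ?_) (hw.summable.mul_right ‖X‖)
    refine mul_le_mul_of_nonneg_left ?_ (hwt0 k)
    rw [hs]
    have := Real.sqrt_le_sqrt (le_norm_sq v hv k)
    rwa [Real.sqrt_sq (norm_nonneg _)] at this
  have hp2 : ∀ k, s k ^ p = lam k ^ (p / 2) := by
    intro k
    rw [hs]
    simp only [Real.sqrt_eq_rpow]
    rw [← Real.rpow_mul (hlam k)]
    congr 1
    ring
  have hS' : HasSum (fun k => wt k * s k ^ p)
      ((RCLike.re ⟪e, ((star X * X) ^ (p / 2) : H →L[ℂ] H) e⟫_ℂ + SF v lam (p / 2) X f) * (1 / 2)) := by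
    have hfun : (fun k => wt k * s k ^ p) = fun k => (‖⟪v k, e⟫_ℂ‖ ^ 2 * lam k ^ (p / 2) +
        ‖⟪X (v k), f⟫_ℂ‖ ^ 2 / lam k * lam k ^ (p / 2)) * (1 / 2) := by
      funext k
      rw [hp2 k, hwt]
      ring
    rw [hfun]
    exact hwS
  have hj := jensen_ge hp hwt0 (fun k => Real.sqrt_nonneg _) hw (by linarith) hsum.hasSum hS'
  have hb : ‖⟪f, X e⟫_ℂ‖ ≤ ∑' k, wt k * s k := by
    have h2 := v.hasSum_inner_mul_inner ((star X) f) e
    rw [inner_star_left] at h2
    have hterm : ∀ k, ‖⟪(star X) f, v k⟫_ℂ * ⟪v k, e⟫_ℂ‖ ≤ wt k * s k := by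
      intro k
      rw [norm_mul, inner_star_left, ← inner_conj_symm, RCLike.norm_conj]
      by_cases h0 : lam k = 0
      · have h3 := eigen_nonneg v hv k
        rw [h0] at h3
        have h4 : X (v k) = 0 := by
          have : ‖X (v k)‖ = 0 := by nlinarith [norm_nonneg (X (v k))]
          exact norm_eq_zero.1 this
        rw [h4]
        simp [hs, h0]
      · have hpos : 0 < lam k := lt_of_le_of_ne (hlam k) (Ne.symm h0)
        have hsp : 0 < s k := Real.sqrt_pos.2 hpos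
        have hss : s k ^ 2 = lam k := Real.sq_sqrt hpos.le
        have h5 : wt k * s k = (‖⟪v k, e⟫_ℂ‖ ^ 2 * s k + ‖⟪X (v k), f⟫_ℂ‖ ^ 2 / s k) / 2 := by
          simp only [hwt]
          rw [← hss]
          field_simp
        rw [h5]
        have h6 : 0 ≤ (‖⟪v k, e⟫_ℂ‖ * s k - ‖⟪X (v k), f⟫_ℂ‖) ^ 2 := sq_nonneg _
        rw [le_div_iff₀ (by norm_num : (0 : ℝ) < 2)]
        have h7 : ‖⟪X (v k), f⟫_ℂ‖ * ‖⟪v k, e⟫_ℂ‖ * 2 * s k ≤
            (‖⟪v k, e⟫_ℂ‖ ^ 2 * s k + ‖⟪X (v k), f⟫_ℂ‖ ^ 2 / s k) * s k := by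
          have : (‖⟪v k, e⟫_ℂ‖ ^ 2 * s k + ‖⟪X (v k), f⟫_ℂ‖ ^ 2 / s k) * s k =
            ‖⟪v k, e⟫_ℂ‖ ^ 2 * s k ^ 2 + ‖⟪X (v k), f⟫_ℂ‖ ^ 2 := by
            field_simp
          rw [this]
          nlinarith
        exact le_of_mul_le_mul_right h7 hsp
    rw [← h2.tsum_eq]
    exact tsum_of_norm_bounded hsum.hasSum hterm
  calc ‖⟪f, X e⟫_ℂ‖ ^ p ≤ (∑' k, wt k * s k) ^ p := by gcongr
    _ ≤ _ := hj
    _ = _ := by ring

/-- `∑ |⟪f_i, X e_i⟫|^p ≤ tr |X|^p` for finite orthonormal systems, `p ≥ 1`. -/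
lemma sum_le_trAbsPow (b : HilbertBasis ι ℂ H) {X : H →L[ℂ] H}
    (hX : IsCompactOperator (star X * X)) {p : ℝ} (hp : 1 ≤ p) {α : Type*} [Fintype α]
    {e f : α → H} (he : Orthonormal ℂ e) (hf : Orthonormal ℂ f) :
    ∑ i, ENNReal.ofReal (‖⟪f i, X (e i)⟫_ℂ‖ ^ p) ≤ trAbsPow b p X := by
  obtain ⟨κ, v, lam, hv⟩ := exists_eigenbasis' hX
  have hlam : ∀ k, 0 ≤ lam k := fun k => by rw [eigen_nonneg v hv k]; positivity
  have hXG : ∀ z, ‖X z‖ ^ 2 ≤ RCLike.re ⟪z, (star X * X) z⟫_ℂ := fun z =>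
    (re_inner_star_mul X z).ge
  rw [trAbsPow_eq b v hv (by linarith)]
  set T := ∑' k, ENNReal.ofReal (lam k ^ (p / 2)) with hT
  choose A hA hAb using fun i => single_bound v hv hp (he.1 i) (hf.1 i)
  have h1 : ∑ i, ENNReal.ofReal (A i) ≤ T := by
    have e1 : ∀ i, ENNReal.ofReal (A i) =
        ∑' k, ENNReal.ofReal (‖⟪v k, e i⟫_ℂ‖ ^ 2) * ENNReal.ofReal (lam k ^ (p / 2)) := by
      intro i
      rw [← (hA i).tsum_eq, ENNReal.ofReal_tsum_of_nonneg _ (hA i).summable]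
      · congr 1
        funext k
        rw [ENNReal.ofReal_mul (by positivity)]
      · intro k
        exact mul_nonneg (by positivity) (Real.rpow_nonneg (hlam k) _)
    simp_rw [e1]
    rw [← tsum_fintype (L := .unconditional _), ENNReal.tsum_comm]
    refine ENNReal.tsum_le_tsum fun k => ?_
    rw [ENNReal.tsum_mul_right, tsum_fintype]
    have := orthonormal_sum_ofReal_le he (v k)
    rw [v.orthonormal.1 k] at this
    calc _ ≤ ENNReal.ofReal (1 ^ 2) * ENNReal.ofReal (lam k ^ (p / 2)) := by gcongr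
      _ = _ := by simp
  have h2 : ∑ i, ENNReal.ofReal (SF v lam (p / 2) X (f i)) ≤ T := by
    have e1 : ∀ j, ENNReal.ofReal (SF v lam (p / 2) X (f j)) =
        ∑' k, ENNReal.ofReal (‖⟪X (v k), f j⟫_ℂ‖ ^ 2) *
          ENNReal.ofReal (lam k ^ (p / 2) / lam k) := by
      intro j
      obtain ⟨W, hW, hW1, hm, hS⟩ := SF_weights v hv hlam (le_norm_sq v hv) hXG (q := p / 2)
        (by linarith) (hf.1 j)
      unfold SF
      rw [ENNReal.ofReal_tsum_of_nonneg _ hS.summable]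
      · congr 1
        funext k
        rw [← ENNReal.ofReal_mul (by positivity)]
        congr 1
        ring
      · intro k
        exact mul_nonneg (div_nonneg (by positivity) (hlam k)) (Real.rpow_nonneg (hlam k) _)
    simp_rw [e1]
    rw [← tsum_fintype (L := .unconditional _), ENNReal.tsum_comm]
    refine ENNReal.tsum_le_tsum fun k => ?_
    rw [ENNReal.tsum_mul_right, tsum_fintype]
    have := orthonormal_sum_ofReal_le hf (X (v k))
    rw [← eigen_nonneg v hv k] at this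
    calc _ ≤ ENNReal.ofReal (lam k) * ENNReal.ofReal (lam k ^ (p / 2) / lam k) := by gcongr
      _ = ENNReal.ofReal (lam k ^ (p / 2)) := by
        rw [← ENNReal.ofReal_mul (hlam k)]
        congr 1
        by_cases h0 : lam k = 0
        · rw [h0, Real.zero_rpow (by positivity), zero_mul]
        · field_simp
  have h3 : 2 * ∑ i, ENNReal.ofReal (‖⟪f i, X (e i)⟫_ℂ‖ ^ p) ≤ 2 * T := by
    rw [Finset.mul_sum]
    calc ∑ i, 2 * ENNReal.ofReal (‖⟪f i, X (e i)⟫_ℂ‖ ^ p)
        ≤ ∑ i, (ENNReal.ofReal (A i) + ENNReal.ofReal (SF v lam (p / 2) X (f i))) := by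
          refine Finset.sum_le_sum fun i _ => ?_
          have hA0 : 0 ≤ A i := (hA i).nonneg fun k =>
            mul_nonneg (by positivity) (Real.rpow_nonneg (hlam k) _)
          have hS0 : 0 ≤ SF v lam (p / 2) X (f i) := tsum_nonneg fun k =>
            mul_nonneg (div_nonneg (by positivity) (hlam k)) (Real.rpow_nonneg (hlam k) _)
          rw [← ENNReal.ofReal_add hA0 hS0]
          have h2' : (2 : ℝ≥0∞) = ENNReal.ofReal 2 := by simp
          rw [h2', ← ENNReal.ofReal_mul (by norm_num)]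
          apply ENNReal.ofReal_le_ofReal
          have := hAb i
          linarith
      _ = (∑ i, ENNReal.ofReal (A i)) + ∑ i, ENNReal.ofReal (SF v lam (p / 2) X (f i)) :=
          Finset.sum_add_distrib
      _ ≤ T + T := add_le_add h1 h2
      _ = 2 * T := (two_mul T).symm
  have h2 : (2 : ℝ≥0∞) ≠ 0 := by norm_num
  have h2' : (2 : ℝ≥0∞) ≠ ∞ := by norm_num
  exact (ENNReal.mul_le_mul_iff_right h2 h2').1 h3

end Pool.Agent.Helper526.Sch
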