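import Pool.Agent.Helper526.Sch.Trace

set_option autoImplicit false
set_option linter.unusedSectionVars false
open scoped InnerProductSpace ENNReal NNReal Topology

namespace Pool.Agent.Helper526.Sch

universe u v w w'

variable {ι : Type v} {κ : Type w} {κ' : Type w'} {H : Type u} [NormedAddCommGroup H]
  [InnerProductSpace ℂ H] [CompleteSpace H]

lemma inner_star_right (X : H →L[ℂ] H) (x y : H) : ⟪x, (star X) y⟫_ℂ = ⟪X x, y⟫_ℂ :=
  ContinuousLinearMap.adjoint_inner_right X x y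

lemma inner_star_left (X : H →L[ℂ] H) (x y : H) : ⟪(star X) x, y⟫_ℂ = ⟪x, X y⟫_ℂ :=
  ContinuousLinearMap.adjoint_inner_left X y x

lemma re_inner_star_mul (X : H →L[ℂ] H) (x : H) :
    RCLike.re ⟪x, (star X * X) x⟫_ℂ = ‖X x‖ ^ 2 := by
  have h1 : ⟪x, (star X * X) x⟫_ℂ = ⟪X x, X x⟫_ℂ := inner_star_right X x (X x)
  rw [h1, inner_self_eq_norm_sq_to_K]
  norm_cast

/-- the class of operators for which both `X* X` and `X X*` are compact (equivalently `X` is) -/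
def Cpt (X : H →L[ℂ] H) : Prop :=
  IsCompactOperator (star X * X) ∧ IsCompactOperator (X * star X)

lemma Cpt.of_compact {X : H →L[ℂ] H} (hX : IsCompactOperator X) : Cpt X :=
  ⟨hX.clm_comp (star X), hX.comp_clm (star X)⟩

lemma Cpt.star {X : H →L[ℂ] H} (hX : Cpt X) : Cpt (star X) := by
  unfold Cpt
  rw [star_star]
  exact ⟨hX.2, hX.1⟩

/-- eigenbasis of `X* X` -/
lemma exists_eigenbasis' {X : H →L[ℂ] H} (hX : IsCompactOperator (star X * X)) :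
    ∃ (κ : Type u) (v : HilbertBasis κ ℂ H) (lam : κ → ℝ),
      ∀ k, (star X * X) (v k) = ((lam k : ℝ) : ℂ) • v k :=
  exists_eigenbasis hX (isSelfAdjoint_star_mul X)

lemma trAbsPow_indep (b : HilbertBasis ι ℂ H) (b' : HilbertBasis κ ℂ H) {X : H →L[ℂ] H}
    (hX : IsCompactOperator (star X * X)) {p : ℝ} (hp : 0 < p) :
    trAbsPow b p X = trAbsPow b' p X := by
  obtain ⟨κ, v, lam, h⟩ := exists_eigenbasis' hX
  rw [trAbsPow_eq b v h hp, trAbsPow_eq b' v h hp]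

/-- matrix coefficients summed over both bases: `tr |X*|^p = tr |X|^p`. -/
lemma trAbsPow_star (b : HilbertBasis ι ℂ H) {X : H →L[ℂ] H} (hX : Cpt X) {p : ℝ} (hp : 0 < p) :
    trAbsPow b p (star X) = trAbsPow b p X := by
  obtain ⟨κ, v, lam, hv⟩ := exists_eigenbasis' hX.1
  obtain ⟨κ', u, mu, hu⟩ := exists_eigenbasis' hX.star.1
  rw [trAbsPow_eq b v hv hp, trAbsPow_eq b u hu hp]
  have hlam : ∀ k, lam k = ‖X (v k)‖ ^ 2 := eigen_nonneg v hv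
  have hmu : ∀ j, mu j = ‖(star X) (u j)‖ ^ 2 := eigen_nonneg u hu
  have h1 : ∀ j, ENNReal.ofReal (mu j) = ∑' k, ENNReal.ofReal (‖⟪X (v k), u j⟫_ℂ‖ ^ 2) := by
    intro j
    rw [hmu j, ← tsum_ofReal_inner_sq v]
    congr 1
    funext k
    rw [inner_star_left, ← inner_conj_symm, RCLike.norm_conj]
  have h2 : ∀ k, ENNReal.ofReal (lam k) = ∑' j, ENNReal.ofReal (‖⟪X (v k), u j⟫_ℂ‖ ^ 2) := by
    intro k
    rw [hlam k, ← tsum_ofReal_inner_sq u]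
  have h3 : ∀ j k, ⟪X (v k), u j⟫_ℂ ≠ 0 → lam k = mu j := by
    intro j k hne
    have e1 : ⟪X ((star X * X) (v k)), u j⟫_ℂ = ⟪X (v k), (star (star X) * star X) (u j)⟫_ℂ := by
      rw [star_star]
      have : X ((star X * X) (v k)) = X ((star X) (X (v k))) := rfl
      rw [this, ← inner_star_right, inner_star_left]
      rfl
    rw [hv k, hu j, map_smul, inner_smul_left, inner_smul_right] at e1
    have e2 := mul_right_cancel₀ hne e1
    simpa using e2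
  have hq : 0 < p / 2 := by positivity
  have h4 : ∀ t : ℝ, 0 ≤ t → t ^ (p / 2) = t ^ (p / 2 - 1) * t := by
    intro t ht
    rcases ht.eq_or_lt with h0 | h0
    · rw [← h0, Real.zero_rpow hq.ne', mul_zero]
    · rw [← Real.rpow_add_one h0.ne']
      congr 1
      ring
  have h5 : ∀ j, ENNReal.ofReal (mu j ^ (p / 2)) =
      ∑' k, ENNReal.ofReal (mu j ^ (p / 2 - 1)) * ENNReal.ofReal (‖⟪X (v k), u j⟫_ℂ‖ ^ 2) := by
    intro j
    have hj : 0 ≤ mu j := by rw [hmu j]; positivity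
    rw [h4 _ hj, ENNReal.ofReal_mul (Real.rpow_nonneg hj _), h1 j, ENNReal.tsum_mul_left]
  have h6 : ∀ k, ENNReal.ofReal (lam k ^ (p / 2)) =
      ∑' j, ENNReal.ofReal (lam k ^ (p / 2 - 1)) * ENNReal.ofReal (‖⟪X (v k), u j⟫_ℂ‖ ^ 2) := by
    intro k
    have hk : 0 ≤ lam k := by rw [hlam k]; positivity
    rw [h4 _ hk, ENNReal.ofReal_mul (Real.rpow_nonneg hk _), h2 k, ENNReal.tsum_mul_left]
  simp_rw [h5, h6]
  rw [ENNReal.tsum_comm]
  congr 1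
  funext k
  congr 1
  funext j
  by_cases hne : ⟪X (v k), u j⟫_ℂ = 0
  · simp [hne]
  · rw [h3 j k hne]

/-! Jensen for a single vector -/

lemma le_norm_sq {X : H →L[ℂ] H} (v : HilbertBasis κ ℂ H) {lam : κ → ℝ}
    (hv : ∀ k, (star X * X) (v k) = ((lam k : ℝ) : ℂ) • v k) (k : κ) : lam k ≤ ‖X‖ ^ 2 := by
  rw [eigen_nonneg v hv k]
  have := X.le_opNorm (v k)
  rw [v.orthonormal.1 k, mul_one] at this
  gcongr

lemma hasSum_pow (v : HilbertBasis κ ℂ H) {X : H →L[ℂ] H} {lam : κ → ℝ}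
    (hv : ∀ k, (star X * X) (v k) = ((lam k : ℝ) : ℂ) • v k) {q : ℝ} (hq : 0 < q) (x : H) :
    HasSum (fun k => ‖⟪v k, x⟫_ℂ‖ ^ 2 * lam k ^ q)
      (RCLike.re ⟪x, ((star X * X) ^ q : H →L[ℂ] H) x⟫_ℂ) :=
  hasSum_eigen v (isSelfAdjoint_rpow _ _)
    (fun k => rpow_apply_eigen (star_mul_nonneg X) hq (hv k)) x

lemma rpow_two_mul_half {t p : ℝ} (ht : 0 ≤ t) : (t ^ 2) ^ (p / 2) = t ^ p := by
  rw [← Real.rpow_natCast t 2, ← Real.rpow_mul ht]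
  congr 1
  push_cast
  ring

/-- `p ≥ 2`: `∑ ‖X g_i‖^p ≤ tr |X|^p`. -/
lemma sum_norm_le (b : HilbertBasis ι ℂ H) (g : HilbertBasis κ' ℂ H) {X : H →L[ℂ] H}
    (hX : IsCompactOperator (star X * X)) {p : ℝ} (hp : 2 ≤ p) :
    ∑' i, ENNReal.ofReal (‖X (g i)‖ ^ p) ≤ trAbsPow b p X := by
  obtain ⟨κ, v, lam, hv⟩ := exists_eigenbasis' hX
  rw [trAbsPow_indep b g hX (by linarith)]
  refine ENNReal.tsum_le_tsum fun i => ENNReal.ofReal_le_ofReal ?_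
  have hlam : ∀ k, 0 ≤ lam k := fun k => by rw [eigen_nonneg v hv k]; positivity
  have h1 := hasSum_sq v (g i)
  rw [g.orthonormal.1 i, one_pow] at h1
  have h2 := hasSum_eigen v (isSelfAdjoint_star_mul X) hv (g i)
  rw [re_inner_star_mul] at h2
  have h3 := hasSum_pow v hv (q := p / 2) (by linarith) (g i)
  have := jensen_ge (q := p / 2) (by linarith) (fun k => by positivity) hlam h1 le_rfl h2 h3
  rwa [rpow_two_mul_half (norm_nonneg _)] at this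

/-- `0 < p ≤ 2`: `tr |X|^p ≤ ∑ ‖X g_i‖^p`. -/
lemma le_sum_norm (b : HilbertBasis ι ℂ H) (g : HilbertBasis κ' ℂ H) {X : H →L[ℂ] H}
    (hX : IsCompactOperator (star X * X)) {p : ℝ} (hp0 : 0 < p) (hp : p ≤ 2) :
    trAbsPow b p X ≤ ∑' i, ENNReal.ofReal (‖X (g i)‖ ^ p) := by
  obtain ⟨κ, v, lam, hv⟩ := exists_eigenbasis' hX
  rw [trAbsPow_indep b g hX hp0]
  refine ENNReal.tsum_le_tsum fun i => ENNReal.ofReal_le_ofReal ?_
  have hlam : ∀ k, 0 ≤ lam k := fun k => by rw [eigen_nonneg v hv k]; positivity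
  have h1 := hasSum_sq v (g i)
  rw [g.orthonormal.1 i, one_pow] at h1
  have h2 := hasSum_eigen v (isSelfAdjoint_star_mul X) hv (g i)
  rw [re_inner_star_mul] at h2
  have h3 := hasSum_pow v hv (q := p / 2) (by linarith) (g i)
  have := jensen_le (q := p / 2) (by linarith) (by linarith) (fun k => by positivity) hlam h1
    le_rfl h2 h3
  rwa [rpow_two_mul_half (norm_nonneg _)] at this

/-! Bessel-type weights -/

/-- If `‖X z‖² ≤ ⟪z, G z⟫` and `G g_k = γ_k g_k`, then `∑ |⟪X g_k, u⟫|²/γ_k ≤ ‖u‖²`. -/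
lemma bessel_weight (g : HilbertBasis κ ℂ H) {X G : H →L[ℂ] H} {gam : κ → ℝ}
    (hG : ∀ k, G (g k) = ((gam k : ℝ) : ℂ) • g k) (hgam : ∀ k, 0 ≤ gam k)
    (hXG : ∀ z, ‖X z‖ ^ 2 ≤ RCLike.re ⟪z, G z⟫_ℂ) (u : H) :
    ∃ W : ℝ, HasSum (fun k => ‖⟪X (g k), u⟫_ℂ‖ ^ 2 / gam k) W ∧ W ≤ ‖u‖ ^ 2 := by
  have hfin : ∀ F : Finset κ, ∑ k ∈ F, ‖⟪X (g k), u⟫_ℂ‖ ^ 2 / gam k ≤ ‖u‖ ^ 2 := by
    classical
    intro F
    set S := ∑ k ∈ F, ‖⟪X (g k), u⟫_ℂ‖ ^ 2 / gam k with hS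
    have hS0 : 0 ≤ S := Finset.sum_nonneg fun k _ => div_nonneg (by positivity) (hgam k)
    let a : κ → ℂ := fun k => ⟪X (g k), u⟫_ℂ / gam k
    let z : H := ∑ k ∈ F, a k • g k
    have hGz : G z = ∑ k ∈ F, (a k * gam k) • g k := by
      simp only [z, map_sum, map_smul, hG, smul_smul]
    have hin : ⟪z, G z⟫_ℂ = (S : ℂ) := by
      rw [hGz]
      have := g.orthonormal.inner_sum (fun k => a k) (fun k => a k * gam k) F
      rw [this, hS]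
      push_cast
      refine Finset.sum_congr rfl fun k _ => ?_
      simp only [a, map_div₀, Complex.conj_ofReal]
      by_cases h0 : gam k = 0
      · simp [h0]
      · have h0' : (gam k : ℂ) ≠ 0 := by exact_mod_cast h0
        field_simp
        rw [← Complex.normSq_eq_conj_mul_self, Complex.normSq_eq_norm_sq]
        push_cast
        ring
    have hXz : ⟪X z, u⟫_ℂ = (S : ℂ) := by
      simp only [z, map_sum, map_smul, sum_inner, inner_smul_left]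
      rw [hS]
      push_cast
      refine Finset.sum_congr rfl fun k _ => ?_
      simp only [a, map_div₀, Complex.conj_ofReal]
      rw [div_mul_eq_mul_div, ← Complex.normSq_eq_conj_mul_self, Complex.normSq_eq_norm_sq]
      push_cast
      rfl
    have h1 : ‖X z‖ ^ 2 ≤ S := by
      have := hXG z
      rw [hin] at this
      simpa using this
    have h2 : S ≤ ‖X z‖ * ‖u‖ := by
      have := norm_inner_le_norm (𝕜 := ℂ) (X z) u
      rw [hXz] at this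
      have h3 : ‖(S : ℂ)‖ = S := by
        rw [Complex.norm_real, Real.norm_of_nonneg hS0]
      rwa [h3] at this
    rcases hS0.eq_or_lt with h0 | hpos
    · rw [← h0]; positivity
    · have h4 : S ^ 2 ≤ S * ‖u‖ ^ 2 := by
        calc S ^ 2 ≤ (‖X z‖ * ‖u‖) ^ 2 := by gcongr
          _ = ‖X z‖ ^ 2 * ‖u‖ ^ 2 := by ring
          _ ≤ S * ‖u‖ ^ 2 := by gcongr
      have h5 : S * S ≤ S * ‖u‖ ^ 2 := by rwa [← sq]
      exact le_of_mul_le_mul_left h5 hpos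
  have hnn : ∀ k, 0 ≤ ‖⟪X (g k), u⟫_ℂ‖ ^ 2 / gam k := fun k => div_nonneg (by positivity) (hgam k)
  have hsum : Summable (fun k => ‖⟪X (g k), u⟫_ℂ‖ ^ 2 / gam k) :=
    summable_of_sum_le hnn hfin
  exact ⟨_, hsum.hasSum, hsum.tsum_le_of_sum_le hfin⟩

/-- the Jensen sums used in the comparison of `tr G^q` with `tr |X|^{2q}` -/
noncomputable def SF (g : HilbertBasis κ ℂ H) (gam : κ → ℝ) (q : ℝ) (X : H →L[ℂ] H) (u : H) : ℝ :=
  ∑' k, ‖⟪X (g k), u⟫_ℂ‖ ^ 2 / gam k * gam k ^ q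

section SFsec

variable (g : HilbertBasis κ ℂ H) {X G : H →L[ℂ] H} {gam : κ → ℝ} {C : ℝ}

lemma norm_apply_le_gam (hG : ∀ k, G (g k) = ((gam k : ℝ) : ℂ) • g k)
    (hXG : ∀ z, ‖X z‖ ^ 2 ≤ RCLike.re ⟪z, G z⟫_ℂ) (k : κ) : ‖X (g k)‖ ^ 2 ≤ gam k := by
  have := hXG (g k)
  rw [hG k, inner_smul_right, inner_self_eq_norm_sq_to_K, g.orthonormal.1 k] at this
  simpa using this

lemma SF_weights (hG : ∀ k, G (g k) = ((gam k : ℝ) : ℂ) • g k) (hgam : ∀ k, 0 ≤ gam k)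
    (hC : ∀ k, gam k ≤ C) (hXG : ∀ z, ‖X z‖ ^ 2 ≤ RCLike.re ⟪z, G z⟫_ℂ) {q : ℝ} (hq : 0 < q)
    {u : H} (hu : ‖u‖ = 1) :
    ∃ W : ℝ, HasSum (fun k => ‖⟪X (g k), u⟫_ℂ‖ ^ 2 / gam k) W ∧ W ≤ 1 ∧
      HasSum (fun k => ‖⟪X (g k), u⟫_ℂ‖ ^ 2 / gam k * gam k) (‖(star X) u‖ ^ 2) ∧
      HasSum (fun k => ‖⟪X (g k), u⟫_ℂ‖ ^ 2 / gam k * gam k ^ q) (SF g gam q X u) := by
  obtain ⟨W, hW, hW1⟩ := bessel_weight g hG hgam hXG u
  rw [hu, one_pow] at hW1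
  refine ⟨W, hW, hW1, ?_, ?_⟩
  · have h1 := hasSum_sq g ((star X) u)
    convert h1 using 1
    funext k
    rw [inner_star_right]
    by_cases h0 : gam k = 0
    · have h2 := norm_apply_le_gam g hG hXG k
      rw [h0] at h2
      have h3 : X (g k) = 0 := by
        have : ‖X (g k)‖ = 0 := by nlinarith [norm_nonneg (X (g k))]
        exact norm_eq_zero.1 this
      simp [h3]
    · field_simp
  · refine (Summable.of_nonneg_of_le (fun k => ?_) (fun k => ?_) (hW.summable.mul_right (C ^ q))).hasSum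
    · exact mul_nonneg (div_nonneg (by positivity) (hgam k)) (Real.rpow_nonneg (hgam k) q)
    · exact mul_le_mul_of_nonneg_left (Real.rpow_le_rpow (hgam k) (hC k) hq.le)
        (div_nonneg (by positivity) (hgam k))

lemma SF_ge (hG : ∀ k, G (g k) = ((gam k : ℝ) : ℂ) • g k) (hgam : ∀ k, 0 ≤ gam k)
    (hC : ∀ k, gam k ≤ C) (hXG : ∀ z, ‖X z‖ ^ 2 ≤ RCLike.re ⟪z, G z⟫_ℂ) {q : ℝ} (hq : 1 ≤ q)
    {u : H} (hu : ‖u‖ = 1) : (‖(star X) u‖ ^ 2) ^ q ≤ SF g gam q X u := by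
  obtain ⟨W, hW, hW1, hm, hS⟩ := SF_weights g hG hgam hC hXG (q := q) (by linarith) hu
  exact jensen_ge hq (fun k => div_nonneg (by positivity) (hgam k)) hgam hW hW1 hm hS

lemma SF_le (hG : ∀ k, G (g k) = ((gam k : ℝ) : ℂ) • g k) (hgam : ∀ k, 0 ≤ gam k)
    (hC : ∀ k, gam k ≤ C) (hXG : ∀ z, ‖X z‖ ^ 2 ≤ RCLike.re ⟪z, G z⟫_ℂ) {q : ℝ} (hq0 : 0 < q)
    (hq : q ≤ 1) {u : H} (hu : ‖u‖ = 1) : SF g gam q X u ≤ (‖(star X) u‖ ^ 2) ^ q := by
  obtain ⟨W, hW, hW1, hm, hS⟩ := SF_weights g hG hgam hC hXG (q := q) hq0 hu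
  exact jensen_le hq0 hq (fun k => div_nonneg (by positivity) (hgam k)) hgam hW hW1 hm hS

lemma SF_eq (hG : ∀ k, G (g k) = ((gam k : ℝ) : ℂ) • g k) (hgam : ∀ k, 0 ≤ gam k)
    (hC : ∀ k, gam k ≤ C) (hXG : ∀ z, ‖X z‖ ^ 2 ≤ RCLike.re ⟪z, G z⟫_ℂ) {q : ℝ} (hq0 : 0 < q)
    (hq : q ≠ 1) {u : H} (hu : ‖u‖ = 1) (hpos : 0 < ‖(star X) u‖ ^ 2)
    (heq : SF g gam q X u = (‖(star X) u‖ ^ 2) ^ q) :
    ∀ k, ⟪X (g k), u⟫_ℂ ≠ 0 → gam k = ‖(star X) u‖ ^ 2 := by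
  obtain ⟨W, hW, hW1, hm, hS⟩ := SF_weights g hG hgam hC hXG (q := q) hq0 hu
  intro k hk
  have hgk : gam k ≠ 0 := by
    intro h0
    have h2 := norm_apply_le_gam g hG hXG k
    rw [h0] at h2
    have h3 : X (g k) = 0 := by
      have : ‖X (g k)‖ = 0 := by nlinarith [norm_nonneg (X (g k))]
      exact norm_eq_zero.1 this
    simp [h3] at hk
  have hwk : ‖⟪X (g k), u⟫_ℂ‖ ^ 2 / gam k ≠ 0 := by
    apply div_ne_zero _ hgk
    have : ‖⟪X (g k), u⟫_ℂ‖ ≠ 0 := norm_ne_zero_iff.2 hk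
    positivity
  rcases lt_or_gt_of_ne hq with h | h
  · exact jensen_le_eq hq0 h (fun k => div_nonneg (by positivity) (hgam k)) hgam hW hW1 hm hS hpos
      heq.ge k hwk
  · exact jensen_ge_eq h (fun k => div_nonneg (by positivity) (hgam k)) hgam hW hW1 hm hS hpos
      heq.le k hwk

lemma SF_sum (hG : ∀ k, G (g k) = ((gam k : ℝ) : ℂ) • g k) (hgam : ∀ k, 0 ≤ gam k)
    (hC : ∀ k, gam k ≤ C) (hXG : ∀ z, ‖X z‖ ^ 2 ≤ RCLike.re ⟪z, G z⟫_ℂ) {q : ℝ} (hq0 : 0 < q)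
    (u : HilbertBasis κ' ℂ H) :
    ∑' j, ENNReal.ofReal (SF g gam q X (u j)) =
      ∑' k, ENNReal.ofReal (‖X (g k)‖ ^ 2) * ENNReal.ofReal (gam k ^ q / gam k) := by
  have h1 : ∀ j, ENNReal.ofReal (SF g gam q X (u j)) =
      ∑' k, ENNReal.ofReal (‖⟪X (g k), u j⟫_ℂ‖ ^ 2) * ENNReal.ofReal (gam k ^ q / gam k) := by
    intro j
    obtain ⟨W, hW, hW1, hm, hS⟩ := SF_weights g hG hgam hC hXG (q := q) hq0 (u.orthonormal.1 j)
    unfold SF
    rw [ENNReal.ofReal_tsum_of_nonneg _ hS.summable]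
    · congr 1
      funext k
      rw [← ENNReal.ofReal_mul (by positivity)]
      congr 1
      ring
    · intro k
      exact mul_nonneg (div_nonneg (by positivity) (hgam k)) (Real.rpow_nonneg (hgam k) q)
  simp_rw [h1]
  rw [ENNReal.tsum_comm]
  congr 1
  funext k
  rw [ENNReal.tsum_mul_right, tsum_ofReal_inner_sq u]

end SFsec

/-! Comparison of `tr (X*X + Y*Y)^q` with `tr |X|^{2q} + tr |Y|^{2q}` -/

section Compare

variable (g : HilbertBasis κ ℂ H) {X Y : H →L[ℂ] H} {gam : κ → ℝ}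

lemma re_inner_G (X Y : H →L[ℂ] H) (z : H) :
    RCLike.re ⟪z, (star X * X + star Y * Y) z⟫_ℂ = ‖X z‖ ^ 2 + ‖Y z‖ ^ 2 := by
  rw [← re_inner_star_mul X z, ← re_inner_star_mul Y z, ← map_add, ← inner_add_right]
  rfl

lemma gam_eq (hG : ∀ k, (star X * X + star Y * Y) (g k) = ((gam k : ℝ) : ℂ) • g k) (k : κ) :
    gam k = ‖X (g k)‖ ^ 2 + ‖Y (g k)‖ ^ 2 := by
  rw [← re_inner_G X Y (g k), hG k, inner_smul_right, inner_self_eq_norm_sq_to_K,
    g.orthonormal.1 k]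
  simp

lemma gam_le (hG : ∀ k, (star X * X + star Y * Y) (g k) = ((gam k : ℝ) : ℂ) • g k) (k : κ) :
    gam k ≤ ‖X‖ ^ 2 + ‖Y‖ ^ 2 := by
  rw [gam_eq g hG k]
  have h1 := X.le_opNorm (g k)
  have h2 := Y.le_opNorm (g k)
  rw [g.orthonormal.1 k, mul_one] at h1 h2
  gcongr

/-- `∑ γ_k^q` split into the Jensen sums over eigenbases of `XX*` and `YY*`. -/
lemma sum_gam_eq (hG : ∀ k, (star X * X + star Y * Y) (g k) = ((gam k : ℝ) : ℂ) • g k)
    {q : ℝ} (hq0 : 0 < q) {κ₁ κ₂ : Type*} (u : HilbertBasis κ₁ ℂ H) (u' : HilbertBasis κ₂ ℂ H) :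
    ∑' k, ENNReal.ofReal (gam k ^ q) =
      (∑' j, ENNReal.ofReal (SF g gam q X (u j))) + ∑' j, ENNReal.ofReal (SF g gam q Y (u' j)) := by
  have hgam : ∀ k, 0 ≤ gam k := fun k => by rw [gam_eq g hG k]; positivity
  have hX : ∀ z, ‖X z‖ ^ 2 ≤ RCLike.re ⟪z, (star X * X + star Y * Y) z⟫_ℂ := fun z => by
    rw [re_inner_G]; nlinarith [sq_nonneg ‖Y z‖]
  have hY : ∀ z, ‖Y z‖ ^ 2 ≤ RCLike.re ⟪z, (star X * X + star Y * Y) z⟫_ℂ := fun z => by
    rw [re_inner_G]; nlinarith [sq_nonneg ‖X z‖]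
  rw [SF_sum g hG hgam (gam_le g hG) hX hq0 u, SF_sum g hG hgam (gam_le g hG) hY hq0 u',
    ← ENNReal.tsum_add]
  congr 1
  funext k
  rw [← add_mul, ← ENNReal.ofReal_add (by positivity) (by positivity), ← gam_eq g hG k,
    ← ENNReal.ofReal_mul (hgam k)]
  congr 1
  by_cases h0 : gam k = 0
  · rw [h0, Real.zero_rpow hq0.ne', zero_mul]
  · field_simp

end Compare

end Pool.Agent.Helper526.Sch
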