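import Mathlib

set_option autoImplicit false
set_option linter.unusedSectionVars false
namespace Pool.Agent.Helper526.Sch

/-! Tangent line (Bernoulli) inequalities for `t ^ q` -/

lemma tangent_ge {q t m : ℝ} (hq : 1 ≤ q) (ht : 0 ≤ t) (hm : 0 < m) :
    m ^ q + q * m ^ (q - 1) * (t - m) ≤ t ^ q := by
  have h := one_add_mul_self_le_rpow_one_add (s := t / m - 1) (by
    have : 0 ≤ t / m := by positivity
    linarith) hq
  have h1 : (1 + (t / m - 1)) = t / m := by ring
  rw [h1, Real.div_rpow ht hm.le] at h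
  have hmq : 0 < m ^ q := Real.rpow_pos_of_pos hm q
  rw [le_div_iff₀ hmq] at h
  have h2 : m ^ q = m ^ (q - 1) * m := by
    rw [← Real.rpow_add_one hm.ne' (q - 1)]
    congr 1
    ring
  calc m ^ q + q * m ^ (q - 1) * (t - m) = (1 + q * (t / m - 1)) * m ^ q := by
        rw [h2]
        field_simp
    _ ≤ t ^ q := h

lemma tangent_gt {q t m : ℝ} (hq : 1 < q) (ht : 0 ≤ t) (hm : 0 < m) (htm : t ≠ m) :
    m ^ q + q * m ^ (q - 1) * (t - m) < t ^ q := by
  have h := one_add_mul_self_lt_rpow_one_add (s := t / m - 1) (by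
    have : 0 ≤ t / m := by positivity
    linarith) (by
    intro h
    apply htm
    have : t / m = 1 := by linarith
    rwa [div_eq_one_iff_eq hm.ne'] at this) hq
  have h1 : (1 + (t / m - 1)) = t / m := by ring
  rw [h1, Real.div_rpow ht hm.le] at h
  have hmq : 0 < m ^ q := Real.rpow_pos_of_pos hm q
  rw [lt_div_iff₀ hmq] at h
  have h2 : m ^ q = m ^ (q - 1) * m := by
    rw [← Real.rpow_add_one hm.ne' (q - 1)]
    congr 1
    ring
  calc m ^ q + q * m ^ (q - 1) * (t - m) = (1 + q * (t / m - 1)) * m ^ q := by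
        rw [h2]
        field_simp
    _ < t ^ q := h

lemma tangent_le {q t m : ℝ} (hq0 : 0 ≤ q) (hq : q ≤ 1) (ht : 0 ≤ t) (hm : 0 < m) :
    t ^ q ≤ m ^ q + q * m ^ (q - 1) * (t - m) := by
  have h := rpow_one_add_le_one_add_mul_self (s := t / m - 1) (by
    have : 0 ≤ t / m := by positivity
    linarith) hq0 hq
  have h1 : (1 + (t / m - 1)) = t / m := by ring
  rw [h1, Real.div_rpow ht hm.le] at h
  have hmq : 0 < m ^ q := Real.rpow_pos_of_pos hm q
  rw [div_le_iff₀ hmq] at h
  have h2 : m ^ q = m ^ (q - 1) * m := by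
    rw [← Real.rpow_add_one hm.ne' (q - 1)]
    congr 1
    ring
  calc t ^ q ≤ (1 + q * (t / m - 1)) * m ^ q := h
    _ = m ^ q + q * m ^ (q - 1) * (t - m) := by
        rw [h2]
        field_simp

lemma tangent_lt {q t m : ℝ} (hq0 : 0 < q) (hq : q < 1) (ht : 0 ≤ t) (hm : 0 < m) (htm : t ≠ m) :
    t ^ q < m ^ q + q * m ^ (q - 1) * (t - m) := by
  have h := rpow_one_add_lt_one_add_mul_self (s := t / m - 1) (by
    have : 0 ≤ t / m := by positivity
    linarith) (by
    intro h
    apply htm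
    have : t / m = 1 := by linarith
    rwa [div_eq_one_iff_eq hm.ne'] at this) hq0 hq
  have h1 : (1 + (t / m - 1)) = t / m := by ring
  rw [h1, Real.div_rpow ht hm.le] at h
  have hmq : 0 < m ^ q := Real.rpow_pos_of_pos hm q
  rw [div_lt_iff₀ hmq] at h
  have h2 : m ^ q = m ^ (q - 1) * m := by
    rw [← Real.rpow_add_one hm.ne' (q - 1)]
    congr 1
    ring
  calc t ^ q < (1 + q * (t / m - 1)) * m ^ q := h
    _ = m ^ q + q * m ^ (q - 1) * (t - m) := by
        rw [h2]
        field_simp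

/-! Jensen inequalities for sums with total weight at most one -/

variable {κ : Type*} {w lam : κ → ℝ} {W m S q : ℝ}

/-- the tangent-line computation -/
lemma hasSum_defect (hW : HasSum w W) (hm : HasSum (fun k => w k * lam k) m)
    (hS : HasSum (fun k => w k * lam k ^ q) S) :
    HasSum (fun k => w k * (lam k ^ q - (m ^ q + q * m ^ (q - 1) * (lam k - m))))
      (S - (m ^ q * W + q * m ^ (q - 1) * (m - m * W))) := by
  have h1 := (hW.mul_left (m ^ q)).add ((hm.sub (hW.mul_left m)).mul_left (q * m ^ (q - 1)))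
  have h2 := hS.sub h1
  have h3 : (fun k => w k * (lam k ^ q - (m ^ q + q * m ^ (q - 1) * (lam k - m)))) =
      fun k => w k * lam k ^ q - (m ^ q * w k + q * m ^ (q - 1) * (w k * lam k - m * w k)) := by
    funext k
    ring
  rw [h3]
  exact h2

lemma mq_eq (hm : 0 < m) : m ^ q * W + q * m ^ (q - 1) * (m - m * W) = m ^ q * (W + q * (1 - W)) := by
  have h2 : m ^ q = m ^ (q - 1) * m := by
    rw [← Real.rpow_add_one hm.ne' (q - 1)]
    congr 1
    ring
  rw [h2]
  ring

lemma jensen_ge (hq : 1 ≤ q) (hw : ∀ k, 0 ≤ w k) (hlam : ∀ k, 0 ≤ lam k)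
    (hW : HasSum w W) (hW1 : W ≤ 1) (hm : HasSum (fun k => w k * lam k) m)
    (hS : HasSum (fun k => w k * lam k ^ q) S) : m ^ q ≤ S := by
  have hm0 : 0 ≤ m := hm.nonneg (fun k => mul_nonneg (hw k) (hlam k))
  have hS0 : 0 ≤ S := hS.nonneg (fun k => mul_nonneg (hw k) (Real.rpow_nonneg (hlam k) q))
  rcases hm0.eq_or_lt with h0 | hpos
  · rw [← h0, Real.zero_rpow (by linarith)]
    exact hS0
  · have h := (hasSum_defect hW hm hS).nonneg (fun k => by
      have := tangent_ge hq (hlam k) hpos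
      exact mul_nonneg (hw k) (by linarith))
    rw [mq_eq hpos] at h
    have hmq : 0 < m ^ q := Real.rpow_pos_of_pos hpos q
    have : 1 ≤ W + q * (1 - W) := by nlinarith
    nlinarith

lemma jensen_le (hq0 : 0 < q) (hq : q ≤ 1) (hw : ∀ k, 0 ≤ w k) (hlam : ∀ k, 0 ≤ lam k)
    (hW : HasSum w W) (hW1 : W ≤ 1) (hm : HasSum (fun k => w k * lam k) m)
    (hS : HasSum (fun k => w k * lam k ^ q) S) : S ≤ m ^ q := by
  have hm0 : 0 ≤ m := hm.nonneg (fun k => mul_nonneg (hw k) (hlam k))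
  rcases hm0.eq_or_lt with h0 | hpos
  · -- all terms vanish
    have h1 : ∀ k, w k * lam k = 0 := by
      rw [← h0] at hm
      exact fun k => congrFun ((hasSum_zero_iff_of_nonneg
        (fun k => mul_nonneg (hw k) (hlam k))).1 hm) k
    have h2 : ∀ k, w k * lam k ^ q = 0 := by
      intro k
      rcases mul_eq_zero.1 (h1 k) with h | h
      · rw [h, zero_mul]
      · rw [h, Real.zero_rpow hq0.ne', mul_zero]
    simp only [h2] at hS
    rw [hS.unique hasSum_zero, ← h0]
    exact Real.rpow_nonneg le_rfl q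
  · have h := (hasSum_defect hW hm hS).nonpos (fun k => by
      have := tangent_le hq0.le hq (hlam k) hpos
      exact mul_nonpos_of_nonneg_of_nonpos (hw k) (by linarith))
    rw [mq_eq hpos] at h
    have hmq : 0 < m ^ q := Real.rpow_pos_of_pos hpos q
    have : W + q * (1 - W) ≤ 1 := by nlinarith
    nlinarith

lemma jensen_ge_eq (hq : 1 < q) (hw : ∀ k, 0 ≤ w k) (hlam : ∀ k, 0 ≤ lam k)
    (hW : HasSum w W) (hW1 : W ≤ 1) (hm : HasSum (fun k => w k * lam k) m)
    (hS : HasSum (fun k => w k * lam k ^ q) S) (hpos : 0 < m) (heq : S ≤ m ^ q) :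
    ∀ k, w k ≠ 0 → lam k = m := by
  intro k hk
  by_contra hne
  have hnn : ∀ k, 0 ≤ w k * (lam k ^ q - (m ^ q + q * m ^ (q - 1) * (lam k - m))) := fun k => by
    have := tangent_ge hq.le (hlam k) hpos
    exact mul_nonneg (hw k) (by linarith)
  have h := hasSum_defect hW hm hS
  have hle := le_hasSum h k (fun j _ => hnn j)
  rw [mq_eq hpos] at hle
  have hmq : 0 < m ^ q := Real.rpow_pos_of_pos hpos q
  have h1 : 1 ≤ W + q * (1 - W) := by nlinarith
  have h2 := tangent_gt hq (hlam k) hpos hne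
  have h3 : 0 < w k := lt_of_le_of_ne (hw k) (Ne.symm hk)
  have h4 : 0 < w k * (lam k ^ q - (m ^ q + q * m ^ (q - 1) * (lam k - m))) :=
    mul_pos h3 (by linarith)
  nlinarith

lemma jensen_le_eq (hq0 : 0 < q) (hq : q < 1) (hw : ∀ k, 0 ≤ w k) (hlam : ∀ k, 0 ≤ lam k)
    (hW : HasSum w W) (hW1 : W ≤ 1) (hm : HasSum (fun k => w k * lam k) m)
    (hS : HasSum (fun k => w k * lam k ^ q) S) (hpos : 0 < m) (heq : m ^ q ≤ S) :
    ∀ k, w k ≠ 0 → lam k = m := by
  intro k hk
  by_contra hne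
  have hnn : ∀ k, 0 ≤ -(w k * (lam k ^ q - (m ^ q + q * m ^ (q - 1) * (lam k - m)))) := fun k => by
    have := tangent_le hq0.le hq.le (hlam k) hpos
    rw [← mul_neg]
    exact mul_nonneg (hw k) (by linarith)
  have h := (hasSum_defect hW hm hS).neg
  have hle := le_hasSum h k (fun j _ => hnn j)
  rw [mq_eq hpos] at hle
  have hmq : 0 < m ^ q := Real.rpow_pos_of_pos hpos q
  have h1 : W + q * (1 - W) ≤ 1 := by nlinarith
  have h2 := tangent_lt hq0 hq (hlam k) hpos hne
  have h3 : 0 < w k := lt_of_le_of_ne (hw k) (Ne.symm hk)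
  have h4 : w k * (lam k ^ q - (m ^ q + q * m ^ (q - 1) * (lam k - m))) < 0 :=
    mul_neg_of_pos_of_neg h3 (by linarith)
  nlinarith

end Pool.Agent.Helper526.Sch
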