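import Pool.Agent.Helper526.Sch.Ineq

set_option autoImplicit false
set_option linter.unusedSectionVars false
open scoped InnerProductSpace ENNReal NNReal Topology

namespace Pool.Agent.Helper526.Sch

universe u v w w'

variable {ι : Type v} {κ : Type w} {κ' : Type w'} {H : Type u} [NormedAddCommGroup H]
  [InnerProductSpace ℂ H] [CompleteSpace H]

lemma two_mul_rpow_le {q s t : ℝ} (hq : 1 ≤ q) (hs : 0 ≤ s) (ht : 0 ≤ t) :
    2 * ((s + t) / 2) ^ q ≤ s ^ q + t ^ q := by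
  rcases (add_nonneg hs ht).eq_or_lt with h0 | hpos
  · have hs0 : s = 0 := by linarith
    have ht0 : t = 0 := by linarith
    rw [hs0, ht0]
    simp [Real.zero_rpow (show q ≠ 0 by linarith)]
  · have hm : 0 < (s + t) / 2 := by linarith
    have h1 := tangent_ge hq hs hm
    have h2 := tangent_ge hq ht hm
    nlinarith

lemma le_two_mul_rpow {q s t : ℝ} (hq0 : 0 < q) (hq : q ≤ 1) (hs : 0 ≤ s) (ht : 0 ≤ t) :
    s ^ q + t ^ q ≤ 2 * ((s + t) / 2) ^ q := by
  rcases (add_nonneg hs ht).eq_or_lt with h0 | hpos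
  · have hs0 : s = 0 := by linarith
    have ht0 : t = 0 := by linarith
    rw [hs0, ht0]
    simp [Real.zero_rpow (show q ≠ 0 by linarith)]
  · have hm : 0 < (s + t) / 2 := by linarith
    have h1 := tangent_le hq0.le hq hs hm
    have h2 := tangent_le hq0.le hq ht hm
    nlinarith

lemma parallelogram_ge {p : ℝ} (hp : 2 ≤ p) (a b : H) :
    2 * (‖a‖ ^ 2 + ‖b‖ ^ 2) ^ (p / 2) ≤ ‖a + b‖ ^ p + ‖a - b‖ ^ p := by
  have h := two_mul_rpow_le (q := p / 2) (by linarith) (sq_nonneg ‖a + b‖) (sq_nonneg ‖a - b‖)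
  have h2 : (‖a + b‖ ^ 2 + ‖a - b‖ ^ 2) / 2 = ‖a‖ ^ 2 + ‖b‖ ^ 2 := by
    have := parallelogram_law_with_norm ℂ a b
    linarith
  rw [h2, rpow_two_mul_half (norm_nonneg _), rpow_two_mul_half (norm_nonneg _)] at h
  exact h

lemma parallelogram_le {p : ℝ} (hp0 : 0 < p) (hp : p ≤ 2) (a b : H) :
    ‖a + b‖ ^ p + ‖a - b‖ ^ p ≤ 2 * (‖a‖ ^ 2 + ‖b‖ ^ 2) ^ (p / 2) := by
  have h := le_two_mul_rpow (q := p / 2) (by linarith) (by linarith) (sq_nonneg ‖a + b‖)
    (sq_nonneg ‖a - b‖)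
  have h2 : (‖a + b‖ ^ 2 + ‖a - b‖ ^ 2) / 2 = ‖a‖ ^ 2 + ‖b‖ ^ 2 := by
    have := parallelogram_law_with_norm ℂ a b
    linarith
  rw [h2, rpow_two_mul_half (norm_nonneg _), rpow_two_mul_half (norm_nonneg _)] at h
  exact h

/-- trace in terms of the eigenbasis of `XX*` -/
lemma trAbsPow_eq_star (b : HilbertBasis ι ℂ H) {X : H →L[ℂ] H} (hX : Cpt X)
    (u : HilbertBasis κ ℂ H) {mu : κ → ℝ}
    (hu : ∀ k, (star (star X) * star X) (u k) = ((mu k : ℝ) : ℂ) • u k) {p : ℝ} (hp : 0 < p) :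
    trAbsPow b p X = ∑' j, ENNReal.ofReal ((‖(star X) (u j)‖ ^ 2) ^ (p / 2)) := by
  rw [← trAbsPow_star b hX hp, trAbsPow_eq b u hu hp]
  congr 1
  funext j
  rw [eigen_nonneg u hu j]

structure CptPair (X Y : H →L[ℂ] H) : Prop where
  cX : Cpt X
  cY : Cpt Y
  cadd : Cpt (X + Y)
  csub : Cpt (X - Y)

lemma CptPair.of_compact {X Y : H →L[ℂ] H} (hX : IsCompactOperator X) (hY : IsCompactOperator Y) :
    CptPair X Y :=
  ⟨Cpt.of_compact hX, Cpt.of_compact hY, Cpt.of_compact (hX.add hY), Cpt.of_compact (hX.sub hY)⟩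

lemma CptPair.star {X Y : H →L[ℂ] H} (h : CptPair X Y) : CptPair (star X) (star Y) :=
  ⟨h.cX.star, h.cY.star, by rw [← star_add]; exact h.cadd.star, by
    rw [← star_sub]; exact h.csub.star⟩

lemma CptPair.exists_G {X Y : H →L[ℂ] H} (h : CptPair X Y) :
    ∃ (κ : Type u) (g : HilbertBasis κ ℂ H) (gam : κ → ℝ),
      ∀ k, (Star.star X * X + Star.star Y * Y) (g k) = ((gam k : ℝ) : ℂ) • g k :=
  exists_eigenbasis (h.cX.1.add h.cY.1) ((isSelfAdjoint_star_mul X).add (isSelfAdjoint_star_mul Y))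

lemma CptPair.hX {X Y : H →L[ℂ] H} (z : H) :
    ‖X z‖ ^ 2 ≤ RCLike.re ⟪z, (Star.star X * X + Star.star Y * Y) z⟫_ℂ := by
  rw [re_inner_G]; nlinarith [sq_nonneg ‖Y z‖]

lemma CptPair.hY {X Y : H →L[ℂ] H} (z : H) :
    ‖Y z‖ ^ 2 ≤ RCLike.re ⟪z, (Star.star X * X + Star.star Y * Y) z⟫_ℂ := by
  rw [re_inner_G]; nlinarith [sq_nonneg ‖X z‖]

/-- first half of the chain, `p ≥ 2` -/
lemma chain1_ge (b : HilbertBasis ι ℂ H) {X Y : H →L[ℂ] H} (h : CptPair X Y) {p : ℝ} (hp : 2 ≤ p)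
    (g : HilbertBasis κ ℂ H) {gam : κ → ℝ}
    (hG : ∀ k, (star X * X + star Y * Y) (g k) = ((gam k : ℝ) : ℂ) • g k) :
    2 * ∑' k, ENNReal.ofReal (gam k ^ (p / 2)) ≤ trAbsPow b p (X + Y) + trAbsPow b p (X - Y) := by
  refine le_trans ?_ (add_le_add (sum_norm_le b g h.cadd.1 hp) (sum_norm_le b g h.csub.1 hp))
  rw [← ENNReal.tsum_mul_left, ← ENNReal.tsum_add]
  refine ENNReal.tsum_le_tsum fun k => ?_
  rw [← ENNReal.ofReal_add (by positivity) (by positivity)]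
  have h2 : (2 : ℝ≥0∞) = ENNReal.ofReal 2 := by simp
  rw [h2, ← ENNReal.ofReal_mul (by norm_num)]
  apply ENNReal.ofReal_le_ofReal
  rw [gam_eq g hG k]
  exact parallelogram_ge hp _ _

lemma chain1_le (b : HilbertBasis ι ℂ H) {X Y : H →L[ℂ] H} (h : CptPair X Y) {p : ℝ} (hp0 : 0 < p)
    (hp : p ≤ 2) (g : HilbertBasis κ ℂ H) {gam : κ → ℝ}
    (hG : ∀ k, (star X * X + star Y * Y) (g k) = ((gam k : ℝ) : ℂ) • g k) :
    trAbsPow b p (X + Y) + trAbsPow b p (X - Y) ≤ 2 * ∑' k, ENNReal.ofReal (gam k ^ (p / 2)) := by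
  refine le_trans (add_le_add (le_sum_norm b g h.cadd.1 hp0 hp) (le_sum_norm b g h.csub.1 hp0 hp)) ?_
  rw [← ENNReal.tsum_mul_left, ← ENNReal.tsum_add]
  refine ENNReal.tsum_le_tsum fun k => ?_
  rw [← ENNReal.ofReal_add (by positivity) (by positivity)]
  have h2 : (2 : ℝ≥0∞) = ENNReal.ofReal 2 := by simp
  rw [h2, ← ENNReal.ofReal_mul (by norm_num)]
  apply ENNReal.ofReal_le_ofReal
  rw [gam_eq g hG k]
  exact parallelogram_le hp0 hp _ _

/-- second half of the chain, `p ≥ 2` -/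
lemma chain2_ge (b : HilbertBasis ι ℂ H) {X Y : H →L[ℂ] H} (h : CptPair X Y) {p : ℝ} (hp : 2 ≤ p)
    (g : HilbertBasis κ ℂ H) {gam : κ → ℝ}
    (hG : ∀ k, (star X * X + star Y * Y) (g k) = ((gam k : ℝ) : ℂ) • g k) :
    trAbsPow b p X + trAbsPow b p Y ≤ ∑' k, ENNReal.ofReal (gam k ^ (p / 2)) := by
  obtain ⟨κ₁, u, mu, hu⟩ := exists_eigenbasis' h.cX.star.1
  obtain ⟨κ₂, u', mu', hu'⟩ := exists_eigenbasis' h.cY.star.1
  have hgam : ∀ k, 0 ≤ gam k := fun k => by rw [gam_eq g hG k]; positivity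
  rw [sum_gam_eq g hG (q := p / 2) (by linarith) u u', trAbsPow_eq_star b h.cX u hu (by linarith),
    trAbsPow_eq_star b h.cY u' hu' (by linarith)]
  refine add_le_add (ENNReal.tsum_le_tsum fun j => ENNReal.ofReal_le_ofReal ?_)
    (ENNReal.tsum_le_tsum fun j => ENNReal.ofReal_le_ofReal ?_)
  · exact SF_ge g hG hgam (gam_le g hG) CptPair.hX (by linarith) (u.orthonormal.1 j)
  · exact SF_ge g hG hgam (gam_le g hG) CptPair.hY (by linarith) (u'.orthonormal.1 j)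

lemma chain2_le (b : HilbertBasis ι ℂ H) {X Y : H →L[ℂ] H} (h : CptPair X Y) {p : ℝ} (hp0 : 0 < p)
    (hp : p ≤ 2) (g : HilbertBasis κ ℂ H) {gam : κ → ℝ}
    (hG : ∀ k, (star X * X + star Y * Y) (g k) = ((gam k : ℝ) : ℂ) • g k) :
    ∑' k, ENNReal.ofReal (gam k ^ (p / 2)) ≤ trAbsPow b p X + trAbsPow b p Y := by
  obtain ⟨κ₁, u, mu, hu⟩ := exists_eigenbasis' h.cX.star.1
  obtain ⟨κ₂, u', mu', hu'⟩ := exists_eigenbasis' h.cY.star.1
  have hgam : ∀ k, 0 ≤ gam k := fun k => by rw [gam_eq g hG k]; positivity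
  rw [sum_gam_eq g hG (q := p / 2) (by linarith) u u', trAbsPow_eq_star b h.cX u hu (by linarith),
    trAbsPow_eq_star b h.cY u' hu' (by linarith)]
  refine add_le_add (ENNReal.tsum_le_tsum fun j => ENNReal.ofReal_le_ofReal ?_)
    (ENNReal.tsum_le_tsum fun j => ENNReal.ofReal_le_ofReal ?_)
  · exact SF_le g hG hgam (gam_le g hG) CptPair.hX (by linarith) (by linarith) (u.orthonormal.1 j)
  · exact SF_le g hG hgam (gam_le g hG) CptPair.hY (by linarith) (by linarith) (u'.orthonormal.1 j)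

/-- **McCarthy's inequality**, `p ≥ 2`. -/
lemma mccarthy_ge (b : HilbertBasis ι ℂ H) {X Y : H →L[ℂ] H} (h : CptPair X Y) {p : ℝ}
    (hp : 2 ≤ p) :
    2 * (trAbsPow b p X + trAbsPow b p Y) ≤ trAbsPow b p (X + Y) + trAbsPow b p (X - Y) := by
  obtain ⟨κ, g, gam, hG⟩ := h.exists_G
  exact le_trans (by gcongr; exact chain2_ge b h hp g hG) (chain1_ge b h hp g hG)

/-- **McCarthy's inequality**, `0 < p ≤ 2`. -/
lemma mccarthy_le (b : HilbertBasis ι ℂ H) {X Y : H →L[ℂ] H} (h : CptPair X Y) {p : ℝ}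
    (hp0 : 0 < p) (hp : p ≤ 2) :
    trAbsPow b p (X + Y) + trAbsPow b p (X - Y) ≤ 2 * (trAbsPow b p X + trAbsPow b p Y) := by
  obtain ⟨κ, g, gam, hG⟩ := h.exists_G
  exact le_trans (chain1_le b h hp0 hp g hG) (by gcongr; exact chain2_le b h hp0 hp g hG)

/-- If the sums agree (and are finite) then all Jensen inequalities are equalities. -/
lemma eq_of_tsum_eq {α : Type*} {f g : α → ℝ≥0∞} (hfg : ∀ a, f a ≤ g a) (hf : ∑' a, f a ≠ ∞)
    (h : ∑' a, g a ≤ ∑' a, f a) (a : α) : f a = g a := by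
  by_contra hne
  have := ENNReal.tsum_lt_tsum hf hfg (lt_of_le_of_ne (hfg a) hne)
  exact absurd h (not_le.2 this)

/-- from termwise Jensen equality to `Y X* = 0` -/
lemma mul_star_eq_zero_of_SF {X Y : H →L[ℂ] H} (g : HilbertBasis κ ℂ H) {gam : κ → ℝ}
    (hG : ∀ k, (star X * X + star Y * Y) (g k) = ((gam k : ℝ) : ℂ) • g k)
    {q : ℝ} (hq0 : 0 < q) (hq : q ≠ 1) (u : HilbertBasis κ' ℂ H) {mu : κ' → ℝ}
    (hu : ∀ k, (star (star X) * star X) (u k) = ((mu k : ℝ) : ℂ) • u k)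
    (heq : ∀ j, SF g gam q X (u j) = (‖(star X) (u j)‖ ^ 2) ^ q) : Y * star X = 0 := by
  have hgam : ∀ k, 0 ≤ gam k := fun k => by rw [gam_eq g hG k]; positivity
  have key : ∀ j, (Y * star X) (u j) = 0 := by
    intro j
    have hmul : (Y * star X) (u j) = Y ((star X) (u j)) := rfl
    rw [hmul]
    by_cases h0 : (star X) (u j) = 0
    · rw [h0, map_zero]
    have hpos : 0 < ‖(star X) (u j)‖ ^ 2 := by
      have := norm_pos_iff.2 h0
      positivity
    have h1 := SF_eq g hG hgam (gam_le g hG) CptPair.hX hq0 hq (u.orthonormal.1 j) hpos (heq j)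
    have hmu : mu j = ‖(star X) (u j)‖ ^ 2 := eigen_nonneg u hu j
    -- ⟪X* u, G X* u⟫ = mu ‖X* u‖²
    have h2 := hasSum_eigen g ((isSelfAdjoint_star_mul X).add (isSelfAdjoint_star_mul Y)) hG
      ((star X) (u j))
    have h3 := (hasSum_sq g ((star X) (u j))).mul_right (‖(star X) (u j)‖ ^ 2)
    have h4 : (fun k => ‖⟪g k, (star X) (u j)⟫_ℂ‖ ^ 2 * gam k) =
        fun k => ‖⟪g k, (star X) (u j)⟫_ℂ‖ ^ 2 * ‖(star X) (u j)‖ ^ 2 := by
      funext k
      by_cases h5 : ⟪X (g k), u j⟫_ℂ = 0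
      · rw [inner_star_right, h5]
        simp
      · rw [h1 k h5]
    rw [h4] at h2
    have h5 := h2.unique h3
    rw [re_inner_G] at h5
    have h6 : X ((star X) (u j)) = ((mu j : ℝ) : ℂ) • u j := by
      have := hu j
      rwa [star_star] at this
    have h7 : ‖X ((star X) (u j))‖ = ‖(star X) (u j)‖ ^ 2 := by
      rw [h6, norm_smul, u.orthonormal.1 j, mul_one, hmu, Complex.norm_real, Real.norm_of_nonneg
        hpos.le]
    rw [h7] at h5
    have h8 : ‖Y ((star X) (u j))‖ ^ 2 = 0 := by nlinarith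
    have h9 : ‖Y ((star X) (u j))‖ = 0 := by
      exact pow_eq_zero_iff (two_ne_zero) |>.1 h8
    exact norm_eq_zero.1 h9
  ext x
  have hx := u.hasSum_repr x
  have h1 := hx.mapL (Y * star X)
  have h2 : ∀ k, (Y * star X) (u.repr x k • u k) = 0 := by
    intro k
    rw [map_smul, key k, smul_zero]
  simp only [h2] at h1
  rw [h1.unique hasSum_zero]
  rfl

/-- **Equality case of McCarthy's inequality** (`p ≠ 2`), one side. -/
lemma mccarthy_eq_aux (b : HilbertBasis ι ℂ H) {X Y : H →L[ℂ] H} (h : CptPair X Y) {p : ℝ}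
    (hp0 : 0 < p) (hp : p ≠ 2) (hXf : trAbsPow b p X ≠ ∞) (hYf : trAbsPow b p Y ≠ ∞)
    (heq : trAbsPow b p (X + Y) + trAbsPow b p (X - Y) = 2 * (trAbsPow b p X + trAbsPow b p Y)) :
    Y * star X = 0 := by
  obtain ⟨κ, g, gam, hG⟩ := h.exists_G
  obtain ⟨κ₁, u, mu, hu⟩ := exists_eigenbasis' h.cX.star.1
  obtain ⟨κ₂, u', mu', hu'⟩ := exists_eigenbasis' h.cY.star.1
  have hgam : ∀ k, 0 ≤ gam k := fun k => by rw [gam_eq g hG k]; positivity
  have hsum : trAbsPow b p X + trAbsPow b p Y ≠ ∞ := ENNReal.add_ne_top.2 ⟨hXf, hYf⟩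
  have hq0 : 0 < p / 2 := by positivity
  have hq1 : p / 2 ≠ 1 := by
    intro h1
    apply hp
    linarith
  have h2 : (2 : ℝ≥0∞) ≠ 0 := by norm_num
  have h2' : (2 : ℝ≥0∞) ≠ ∞ := by norm_num
  have hS := sum_gam_eq g hG (q := p / 2) hq0 u u'
  have hTX := trAbsPow_eq_star b h.cX u hu hp0
  have hTY := trAbsPow_eq_star b h.cY u' hu' hp0
  have hnnX : ∀ j, 0 ≤ SF g gam (p / 2) X (u j) := fun j => tsum_nonneg fun k =>
    mul_nonneg (div_nonneg (by positivity) (hgam k)) (Real.rpow_nonneg (hgam k) _)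
  refine mul_star_eq_zero_of_SF g hG hq0 hq1 u hu ?_
  rcases lt_or_gt_of_ne hp with hlt | hgt
  · -- p < 2
    have hc1 := chain1_le b h hp0 hlt.le g hG
    have hc2 := chain2_le b h hp0 hlt.le g hG
    rw [heq, ENNReal.mul_le_mul_iff_right h2 h2'] at hc1
    have htot : trAbsPow b p X + trAbsPow b p Y = ∑' k, ENNReal.ofReal (gam k ^ (p / 2)) :=
      le_antisymm hc1 hc2
    rw [hS, hTX, hTY] at htot
    have hX1 : ∀ j, ENNReal.ofReal (SF g gam (p / 2) X (u j)) ≤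
        ENNReal.ofReal ((‖(star X) (u j)‖ ^ 2) ^ (p / 2)) := fun j =>
      ENNReal.ofReal_le_ofReal
        (SF_le g hG hgam (gam_le g hG) CptPair.hX hq0 (by linarith) (u.orthonormal.1 j))
    have hY1 : ∀ j, ENNReal.ofReal (SF g gam (p / 2) Y (u' j)) ≤
        ENNReal.ofReal ((‖(star Y) (u' j)‖ ^ 2) ^ (p / 2)) := fun j =>
      ENNReal.ofReal_le_ofReal
        (SF_le g hG hgam (gam_le g hG) CptPair.hY hq0 (by linarith) (u'.orthonormal.1 j))
    have hX2 := ENNReal.tsum_le_tsum hX1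
    have hY2 := ENNReal.tsum_le_tsum hY1
    rw [hTX] at hXf
    rw [hTY] at hYf
    have hfX : ∑' j, ENNReal.ofReal (SF g gam (p / 2) X (u j)) ≠ ∞ := ne_top_of_le_ne_top hXf hX2
    have hfY : ∑' j, ENNReal.ofReal (SF g gam (p / 2) Y (u' j)) ≠ ∞ := ne_top_of_le_ne_top hYf hY2
    have hle : ∑' j, ENNReal.ofReal ((‖(star X) (u j)‖ ^ 2) ^ (p / 2)) ≤
        ∑' j, ENNReal.ofReal (SF g gam (p / 2) X (u j)) := by
      by_contra hcon
      rw [not_le] at hcon
      have := ENNReal.add_lt_add_of_lt_of_le hfY hcon hY2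
      rw [htot] at this
      exact lt_irrefl _ this
    intro j
    have h3 := eq_of_tsum_eq hX1 hfX hle j
    exact (ENNReal.ofReal_eq_ofReal_iff (hnnX j) (by positivity)).1 h3
  · have hc1 := chain1_ge b h hgt.le g hG
    have hc2 := chain2_ge b h hgt.le g hG
    rw [heq, ENNReal.mul_le_mul_iff_right h2 h2'] at hc1
    have htot : trAbsPow b p X + trAbsPow b p Y = ∑' k, ENNReal.ofReal (gam k ^ (p / 2)) :=
      le_antisymm hc2 hc1
    rw [hS, hTX, hTY] at htot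
    have hX1 : ∀ j, ENNReal.ofReal ((‖(star X) (u j)‖ ^ 2) ^ (p / 2)) ≤
        ENNReal.ofReal (SF g gam (p / 2) X (u j)) := fun j =>
      ENNReal.ofReal_le_ofReal
        (SF_ge g hG hgam (gam_le g hG) CptPair.hX (by linarith) (u.orthonormal.1 j))
    have hY1 : ∀ j, ENNReal.ofReal ((‖(star Y) (u' j)‖ ^ 2) ^ (p / 2)) ≤
        ENNReal.ofReal (SF g gam (p / 2) Y (u' j)) := fun j =>
      ENNReal.ofReal_le_ofReal
        (SF_ge g hG hgam (gam_le g hG) CptPair.hY (by linarith) (u'.orthonormal.1 j))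
    have hX2 := ENNReal.tsum_le_tsum hX1
    have hY2 := ENNReal.tsum_le_tsum hY1
    rw [hTX] at hXf
    rw [hTY] at hYf
    have hle : ∑' j, ENNReal.ofReal (SF g gam (p / 2) X (u j)) ≤
        ∑' j, ENNReal.ofReal ((‖(star X) (u j)‖ ^ 2) ^ (p / 2)) := by
      by_contra hcon
      rw [not_le] at hcon
      have := ENNReal.add_lt_add_of_lt_of_le hYf hcon hY2
      rw [htot] at this
      exact lt_irrefl _ this
    intro j
    have h3 := eq_of_tsum_eq hX1 hXf hle j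
    exact ((ENNReal.ofReal_eq_ofReal_iff (by positivity) (hnnX j)).1 h3).symm

/-- **Equality case of McCarthy's inequality** (`p ≠ 2`): `X` and `Y` are disjoint. -/
lemma mccarthy_eq (b : HilbertBasis ι ℂ H) {X Y : H →L[ℂ] H} (h : CptPair X Y) {p : ℝ}
    (hp0 : 0 < p) (hp : p ≠ 2) (hXf : trAbsPow b p X ≠ ∞) (hYf : trAbsPow b p Y ≠ ∞)
    (heq : trAbsPow b p (X + Y) + trAbsPow b p (X - Y) = 2 * (trAbsPow b p X + trAbsPow b p Y)) :
    X * star Y = 0 ∧ star X * Y = 0 := by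
  have h1 := mccarthy_eq_aux b h hp0 hp hXf hYf heq
  have h2 : star Y * X = 0 := by
    have h3 := mccarthy_eq_aux b h.star hp0 hp (by rw [trAbsPow_star b h.cX hp0]; exact hXf)
      (by rw [trAbsPow_star b h.cY hp0]; exact hYf)
      (by
        rw [← star_add, ← star_sub, trAbsPow_star b h.cX hp0, trAbsPow_star b h.cY hp0,
          trAbsPow_star b h.cadd hp0, trAbsPow_star b h.csub hp0]
        exact heq)
    rwa [star_star] at h3
  constructor
  · have := congrArg star h1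
    rwa [star_mul, star_star, star_zero] at this
  · have := congrArg star h2
    rwa [star_mul, star_star, star_zero] at this

end Pool.Agent.Helper526.Sch
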