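import Pool.Agent.Helper526.Sch.Units

set_option autoImplicit false
set_option linter.unusedSectionVars false
open scoped InnerProductSpace ENNReal NNReal Topology

namespace Pool.Agent.Helper526.Sch

universe u v w w'

variable {ι : Type v} {κ : Type w} {κ' : Type w'} {H : Type u} [NormedAddCommGroup H]
  [InnerProductSpace ℂ H] [CompleteSpace H]

lemma orthonormal_pair {g e : H} (hg : ‖g‖ = 1) (he : ‖e‖ = 1) (hge : ⟪g, e⟫_ℂ = 0) :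
    Orthonormal ℂ ![g, e] := by
  have heg : ⟪e, g⟫_ℂ = 0 := by rw [← inner_conj_symm, hge, map_zero]
  constructor
  · intro i
    fin_cases i <;> simp [hg, he]
  · intro i j hij
    fin_cases i <;> fin_cases j <;> simp_all

lemma orthonormal_triple {g e e' : H} (hg : ‖g‖ = 1) (he : ‖e‖ = 1) (he' : ‖e'‖ = 1)
    (hge : ⟪g, e⟫_ℂ = 0) (hge' : ⟪g, e'⟫_ℂ = 0) (hee' : ⟪e, e'⟫_ℂ = 0) :
    Orthonormal ℂ ![g, e, e'] := by
  have heg : ⟪e, g⟫_ℂ = 0 := by rw [← inner_conj_symm, hge, map_zero]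
  have heg' : ⟪e', g⟫_ℂ = 0 := by rw [← inner_conj_symm, hge', map_zero]
  have hee'' : ⟪e', e⟫_ℂ = 0 := by rw [← inner_conj_symm, hee', map_zero]
  constructor
  · intro i
    fin_cases i <;> simp [hg, he, he']
  · intro i j hij
    fin_cases i <;> fin_cases j <;> simp_all

lemma pair_bound (b : HilbertBasis ι ℂ H) {W : H →L[ℂ] H} (hW : IsCompactOperator (star W * W))
    {p : ℝ} (hp : 1 ≤ p) (htr : trAbsPow b p W ≤ ENNReal.ofReal 2) {g h e : H} (hg : ‖g‖ = 1)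
    (hh : ‖h‖ = 1) (he : ‖e‖ = 1) (hge : ⟪g, e⟫_ℂ = 0) (hhe : ⟪h, e⟫_ℂ = 0) :
    ‖⟪h, W g⟫_ℂ‖ ^ p + ‖⟪e, W e⟫_ℂ‖ ^ p ≤ 2 := by
  have := sum_le_real b hW hp (by norm_num) htr (orthonormal_pair hg he hge)
    (orthonormal_pair hh he hhe)
  simpa [Fin.sum_univ_succ] using this

lemma triple_bound (b : HilbertBasis ι ℂ H) {W : H →L[ℂ] H} (hW : IsCompactOperator (star W * W))
    {p : ℝ} (hp : 1 ≤ p) (htr : trAbsPow b p W ≤ ENNReal.ofReal 2) {g h e e' : H} (hg : ‖g‖ = 1)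
    (hh : ‖h‖ = 1) (he : ‖e‖ = 1) (he' : ‖e'‖ = 1) (hge : ⟪g, e⟫_ℂ = 0) (hge' : ⟪g, e'⟫_ℂ = 0)
    (hhe : ⟪h, e⟫_ℂ = 0) (hhe' : ⟪h, e'⟫_ℂ = 0) (hee' : ⟪e, e'⟫_ℂ = 0) :
    ‖⟪h, W g⟫_ℂ‖ ^ p + (‖⟪e, W e⟫_ℂ‖ ^ p + ‖⟪e', W e'⟫_ℂ‖ ^ p) ≤ 2 := by
  have := sum_le_real b hW hp (by norm_num) htr (orthonormal_triple hg he he' hge hge' hee')
    (orthonormal_triple hh he he' hhe hhe' hee')
  simpa [Fin.sum_univ_succ] using this

/-- Normalisation: if `⟪w, W g⟫ = ‖w‖²`, then `‖⟪w/‖w‖, W g⟫‖ = ‖w‖`. -/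
lemma norm_inner_normalize {w z : H} (hw : w ≠ 0) (h : ⟪w, z⟫_ℂ = ((‖w‖ ^ 2 : ℝ) : ℂ)) :
    ‖((‖w‖⁻¹ : ℝ) : ℂ) • w‖ = 1 ∧ ‖⟪((‖w‖⁻¹ : ℝ) : ℂ) • w, z⟫_ℂ‖ = ‖w‖ := by
  have hn : 0 < ‖w‖ := norm_pos_iff.2 hw
  constructor
  · rw [norm_smul, Complex.norm_real, norm_inv, norm_norm]
    field_simp
  · rw [inner_smul_left, h, norm_mul, RCLike.norm_conj, Complex.norm_real, Complex.norm_real,
      norm_inv, norm_norm, Real.norm_of_nonneg (by positivity)]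
    field_simp

lemma near_basis (b : HilbertBasis ι ℂ H) {W : H →L[ℂ] H} (hW : IsCompactOperator (star W * W))
    {p : ℝ} (hp : 1 ≤ p) (htr : trAbsPow b p W ≤ ENNReal.ofReal 2) {e e' : H} (he : ‖e‖ = 1)
    (he' : ‖e'‖ = 1) (hee' : ⟪e, e'⟫_ℂ = 0) :
    ‖W e - e‖ ^ 2 ≤ ((2 - ‖⟪e', W e'⟫_ℂ‖ ^ p) ^ (1 / p)) ^ 2 - 2 * RCLike.re ⟪e, W e⟫_ℂ + 1 +
      ‖⟪e', W e⟫_ℂ‖ ^ 2 := by
  have hp0 : 0 < p := by linarith
  have he'e : ⟪e', e⟫_ℂ = 0 := by rw [← inner_conj_symm, hee', map_zero]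
  set c := ⟪e', W e⟫_ℂ with hc
  set w : H := W e - c • e' with hw
  have hwe' : ⟪e', w⟫_ℂ = 0 := by
    rw [hw, inner_sub_right, inner_smul_right, inner_self_eq_norm_sq_to_K, he', ← hc]
    simp
  have hwe'' : ⟪w, e'⟫_ℂ = 0 := by rw [← inner_conj_symm, hwe', map_zero]
  have hWe : W e = w + c • e' := by rw [hw]; abel
  -- norm of w
  have hnn : 0 ≤ 2 - ‖⟪e', W e'⟫_ℂ‖ ^ p := by
    have := pair_bound b hW hp htr he he he' hee' hee'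
    have h2 : 0 ≤ ‖⟪e, W e⟫_ℂ‖ ^ p := by positivity
    linarith
  have hwn : ‖w‖ ≤ (2 - ‖⟪e', W e'⟫_ℂ‖ ^ p) ^ (1 / p) := by
    by_cases h0 : w = 0
    · rw [h0, norm_zero]
      exact Real.rpow_nonneg hnn _
    · have h1 : ⟪w, W e⟫_ℂ = ((‖w‖ ^ 2 : ℝ) : ℂ) := by
        rw [hWe, inner_add_right, inner_smul_right, hwe'', mul_zero, add_zero,
          inner_self_eq_norm_sq_to_K]
        norm_cast
      obtain ⟨h2, h3⟩ := norm_inner_normalize h0 h1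
      have h4 := pair_bound b hW hp htr he h2 he' hee' (by
        rw [inner_smul_left, hwe'', mul_zero])
      rw [h3] at h4
      have h5 : ‖w‖ ^ p ≤ 2 - ‖⟪e', W e'⟫_ℂ‖ ^ p := by linarith
      have h6 := Real.rpow_le_rpow (by positivity) h5 (by positivity : 0 ≤ 1 / p)
      rwa [← Real.rpow_mul (norm_nonneg _), mul_one_div_cancel hp0.ne', Real.rpow_one] at h6
  have h7 : ‖W e - e‖ ^ 2 = ‖w - e‖ ^ 2 + ‖c‖ ^ 2 := by
    have h8 : W e - e = (w - e) + c • e' := by rw [hWe]; abel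
    have h9 : ⟪w - e, c • e'⟫_ℂ = 0 := by
      rw [inner_smul_right, inner_sub_left, hwe'', hee']
      simp
    have h10 := norm_add_sq_eq_norm_sq_add_norm_sq_of_inner_eq_zero (w - e) (c • e') h9
    rw [h8]
    rw [norm_smul, he', mul_one] at h10
    nlinarith
  have h11 : ‖w - e‖ ^ 2 = ‖w‖ ^ 2 - 2 * RCLike.re ⟪e, W e⟫_ℂ + 1 := by
    rw [@norm_sub_sq ℂ]
    have h12 : ⟪w, e⟫_ℂ = ⟪W e, e⟫_ℂ := by
      rw [hw, inner_sub_left, inner_smul_left, he'e, mul_zero, sub_zero]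
    rw [h12, he, one_pow, inner_re_symm]
  rw [h7, h11]
  have h13 : ‖w‖ ^ 2 ≤ ((2 - ‖⟪e', W e'⟫_ℂ‖ ^ p) ^ (1 / p)) ^ 2 := by
    gcongr
  linarith

/-- `W` is small on the orthogonal complement of `e, e'`. -/
lemma small_on_compl (b : HilbertBasis ι ℂ H) {W : H →L[ℂ] H} (hW : IsCompactOperator (star W * W))
    {p : ℝ} (hp : 1 ≤ p) (htr : trAbsPow b p W ≤ ENNReal.ofReal 2) {e e' : H} (he : ‖e‖ = 1)
    (he' : ‖e'‖ = 1) (hee' : ⟪e, e'⟫_ℂ = 0) {z : H} (hz1 : ‖z‖ ≤ 1) (hze : ⟪e, z⟫_ℂ = 0)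
    (hze' : ⟪e', z⟫_ℂ = 0) :
    ‖W z‖ ≤ (2 - (‖⟪e, W e⟫_ℂ‖ ^ p + ‖⟪e', W e'⟫_ℂ‖ ^ p)) ^ (1 / p) +
      ‖(star W) e - e‖ + ‖(star W) e' - e'‖ := by
  have hp0 : 0 < p := by linarith
  have he'e : ⟪e', e⟫_ℂ = 0 := by rw [← inner_conj_symm, hee', map_zero]
  have hze2 : ⟪z, e⟫_ℂ = 0 := by rw [← inner_conj_symm, hze, map_zero]
  have hze2' : ⟪z, e'⟫_ℂ = 0 := by rw [← inner_conj_symm, hze', map_zero]
  set c := ⟪e, W z⟫_ℂ with hc
  set c' := ⟪e', W z⟫_ℂ with hc'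
  set w : H := W z - c • e - c' • e' with hw
  have hwe : ⟪e, w⟫_ℂ = 0 := by
    rw [hw, inner_sub_right, inner_sub_right, inner_smul_right, inner_smul_right, hee',
      inner_self_eq_norm_sq_to_K, he, ← hc]
    simp
  have hwe' : ⟪e', w⟫_ℂ = 0 := by
    rw [hw, inner_sub_right, inner_sub_right, inner_smul_right, inner_smul_right, he'e,
      inner_self_eq_norm_sq_to_K, he', ← hc']
    simp
  have hwe2 : ⟪w, e⟫_ℂ = 0 := by rw [← inner_conj_symm, hwe, map_zero]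
  have hwe2' : ⟪w, e'⟫_ℂ = 0 := by rw [← inner_conj_symm, hwe', map_zero]
  have hWz : W z = w + c • e + c' • e' := by rw [hw]; abel
  set a := ‖⟪e, W e⟫_ℂ‖ ^ p + ‖⟪e', W e'⟫_ℂ‖ ^ p with ha
  have hnn : 0 ≤ 2 - a := by
    have := pair_bound b hW hp htr he he he' hee' hee'
    linarith
  have hwn : ‖w‖ ≤ (2 - a) ^ (1 / p) := by
    by_cases h0 : w = 0
    · rw [h0, norm_zero]
      exact Real.rpow_nonneg hnn _
    by_cases hz0 : z = 0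
    · exfalso
      apply h0
      rw [hw, hc, hc', hz0]
      simp
    · have hzn : 0 < ‖z‖ := norm_pos_iff.2 hz0
      have h1 : ⟪w, W z⟫_ℂ = ((‖w‖ ^ 2 : ℝ) : ℂ) := by
        rw [hWz, inner_add_right, inner_add_right, inner_smul_right, inner_smul_right, hwe2, hwe2',
          mul_zero, add_zero, mul_zero, add_zero, inner_self_eq_norm_sq_to_K]
        norm_cast
      obtain ⟨h2, h3⟩ := norm_inner_normalize h0 h1
      set z1 : H := ((‖z‖⁻¹ : ℝ) : ℂ) • z with hz1'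
      have hz1n : ‖z1‖ = 1 := by
        rw [hz1', norm_smul, Complex.norm_real, norm_inv, norm_norm]
        field_simp
      have h4 := triple_bound b hW hp htr hz1n h2 he he'
        (by rw [hz1', inner_smul_left, hze2, mul_zero])
        (by rw [hz1', inner_smul_left, hze2', mul_zero])
        (by rw [inner_smul_left, hwe2, mul_zero])
        (by rw [inner_smul_left, hwe2', mul_zero]) hee'
      have h5 : ‖⟪((‖w‖⁻¹ : ℝ) : ℂ) • w, W z1⟫_ℂ‖ = ‖z‖⁻¹ * ‖w‖ := by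
        rw [hz1', map_smul, inner_smul_right, norm_mul, h3, Complex.norm_real, norm_inv, norm_norm]
      rw [h5] at h4
      have h6 : (‖z‖⁻¹ * ‖w‖) ^ p ≤ 2 - a := by linarith
      have h7 : ‖w‖ ≤ ‖z‖⁻¹ * ‖w‖ := by
        have : 1 ≤ ‖z‖⁻¹ := (one_le_inv₀ hzn).2 hz1
        nlinarith [norm_nonneg w]
      have h8 : ‖w‖ ^ p ≤ 2 - a := le_trans (by gcongr) h6
      have h9 := Real.rpow_le_rpow (by positivity) h8 (by positivity : 0 ≤ 1 / p)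
      rwa [← Real.rpow_mul (norm_nonneg _), mul_one_div_cancel hp0.ne', Real.rpow_one] at h9
  have hcn : ‖c‖ ≤ ‖(star W) e - e‖ := by
    have h1 : c = ⟪(star W) e - e, z⟫_ℂ := by
      rw [inner_sub_left, inner_star_left, hze, sub_zero]
    rw [h1]
    calc ‖⟪(star W) e - e, z⟫_ℂ‖ ≤ ‖(star W) e - e‖ * ‖z‖ := norm_inner_le_norm _ _
      _ ≤ ‖(star W) e - e‖ * 1 := by gcongr
      _ = _ := mul_one _
  have hcn' : ‖c'‖ ≤ ‖(star W) e' - e'‖ := by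
    have h1 : c' = ⟪(star W) e' - e', z⟫_ℂ := by
      rw [inner_sub_left, inner_star_left, hze', sub_zero]
    rw [h1]
    calc ‖⟪(star W) e' - e', z⟫_ℂ‖ ≤ ‖(star W) e' - e'‖ * ‖z‖ := norm_inner_le_norm _ _
      _ ≤ ‖(star W) e' - e'‖ * 1 := by gcongr
      _ = _ := mul_one _
  calc ‖W z‖ = ‖w + c • e + c' • e'‖ := by rw [hWz]
    _ ≤ ‖w‖ + ‖c • e‖ + ‖c' • e'‖ := norm_add₃_le
    _ = ‖w‖ + ‖c‖ + ‖c'‖ := by rw [norm_smul, norm_smul, he, he', mul_one, mul_one]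
    _ ≤ _ := by gcongr

end Pool.Agent.Helper526.Sch
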