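import Pool.Agent.Helper526.Sch.Basic
import Pool.Agent.Helper526.Sch.Jensen

set_option autoImplicit false
set_option linter.unusedSectionVars false
open scoped InnerProductSpace ENNReal NNReal Topology

namespace Pool.Agent.Helper526.Sch

universe u v w

variable {ι : Type v} {κ : Type w} {H : Type u} [NormedAddCommGroup H] [InnerProductSpace ℂ H]
  [CompleteSpace H]

/-- The positive operator `|c|^p = (c* c)^{p/2}`. -/
noncomputable def absPow (p : ℝ) (c : H →L[ℂ] H) : H →L[ℂ] H := (star c * c) ^ (p / 2)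

/-- The trace `tr |c|^p = tr (c* c)^{p/2} ∈ [0,∞]` of the positive operator `|c|^p`, computed in
the Hilbert basis `b`. -/
noncomputable def trAbsPow (b : HilbertBasis ι ℂ H) (p : ℝ) (c : H →L[ℂ] H) : ℝ≥0∞ :=
  ∑' i, ENNReal.ofReal (RCLike.re ⟪b i, absPow p c (b i)⟫_ℂ)

lemma inner_apply_eigen {T : H →L[ℂ] H} (hT : IsSelfAdjoint T) {v : H} {mu : ℝ}
    (h : T v = (mu : ℂ) • v) (x : H) : ⟪v, T x⟫_ℂ = mu * ⟪v, x⟫_ℂ := by
  have h1 : ⟪v, T x⟫_ℂ = ⟪T v, x⟫_ℂ := (hT.isSymmetric v x).symm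
  rw [h1, h, inner_smul_left]
  simp

lemma hasSum_sq (v : HilbertBasis κ ℂ H) (x : H) :
    HasSum (fun k => ‖⟪v k, x⟫_ℂ‖ ^ 2) (‖x‖ ^ 2) := by
  have h := (v.hasSum_inner_mul_inner x x)
  have h2 := (Complex.reCLM.hasSum h)
  convert h2 using 1
  · funext k
    have : ⟪x, v k⟫_ℂ = (starRingEnd ℂ) ⟪v k, x⟫_ℂ := (inner_conj_symm _ _).symm
    simp only [Complex.reCLM_apply]
    rw [this, ← Complex.normSq_eq_conj_mul_self, Complex.ofReal_re, Complex.normSq_eq_norm_sq]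
  · rw [Complex.reCLM_apply, inner_self_eq_norm_sq_to_K]
    norm_cast

lemma hasSum_eigen (v : HilbertBasis κ ℂ H) {T : H →L[ℂ] H} (hT : IsSelfAdjoint T) {mu : κ → ℝ}
    (h : ∀ k, T (v k) = (mu k : ℂ) • v k) (x : H) :
    HasSum (fun k => ‖⟪v k, x⟫_ℂ‖ ^ 2 * mu k) (RCLike.re ⟪x, T x⟫_ℂ) := by
  have h1 := (v.hasSum_inner_mul_inner x (T x))
  have h2 := (Complex.reCLM.hasSum h1)
  have h0 : RCLike.re ⟪x, T x⟫_ℂ = Complex.reCLM ⟪x, T x⟫_ℂ := rfl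
  rw [h0]
  convert h2 using 1
  funext k
  have : ⟪x, v k⟫_ℂ = (starRingEnd ℂ) ⟪v k, x⟫_ℂ := (inner_conj_symm _ _).symm
  simp only [Complex.reCLM_apply]
  rw [this, inner_apply_eigen hT (h k) x, mul_left_comm, ← Complex.normSq_eq_conj_mul_self,
    ← Complex.ofReal_mul, Complex.ofReal_re, Complex.normSq_eq_norm_sq, mul_comm]

lemma tsum_ofReal_inner_sq (b : HilbertBasis ι ℂ H) (x : H) :
    ∑' i, ENNReal.ofReal (‖⟪x, b i⟫_ℂ‖ ^ 2) = ENNReal.ofReal (‖x‖ ^ 2) := by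
  have h := hasSum_sq b x
  rw [← h.tsum_eq, ENNReal.ofReal_tsum_of_nonneg (fun _ => by positivity) h.summable]
  congr 1
  funext i
  rw [← inner_conj_symm, RCLike.norm_conj]

/-- trace formula: the trace of a diagonalisable positive operator -/
lemma tsum_trace_eq (b : HilbertBasis ι ℂ H) (v : HilbertBasis κ ℂ H) {T : H →L[ℂ] H}
    (hT : IsSelfAdjoint T) {mu : κ → ℝ} (hmu : ∀ k, 0 ≤ mu k)
    (h : ∀ k, T (v k) = (mu k : ℂ) • v k) :
    ∑' i, ENNReal.ofReal (RCLike.re ⟪b i, T (b i)⟫_ℂ) = ∑' k, ENNReal.ofReal (mu k) := by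
  have h1 : ∀ i, ENNReal.ofReal (RCLike.re ⟪b i, T (b i)⟫_ℂ) =
      ∑' k, ENNReal.ofReal (‖⟪v k, b i⟫_ℂ‖ ^ 2) * ENNReal.ofReal (mu k) := by
    intro i
    have h2 := hasSum_eigen v hT h (b i)
    rw [← h2.tsum_eq, ENNReal.ofReal_tsum_of_nonneg (fun k => mul_nonneg (by positivity) (hmu k))
      h2.summable]
    congr 1
    funext k
    rw [ENNReal.ofReal_mul (by positivity)]
  simp_rw [h1]
  rw [ENNReal.tsum_comm]
  congr 1
  funext k
  rw [ENNReal.tsum_mul_right, tsum_ofReal_inner_sq b (v k), v.orthonormal.1 k]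
  simp

/-- eigenbasis of `X* X`: eigenvalues are `‖X v_k‖²` -/
lemma eigen_nonneg (v : HilbertBasis κ ℂ H) {X : H →L[ℂ] H} {lam : κ → ℝ}
    (h : ∀ k, (star X * X) (v k) = (lam k : ℂ) • v k) (k : κ) : lam k = ‖X (v k)‖ ^ 2 := by
  have h1 : ⟪v k, (star X * X) (v k)⟫_ℂ = ⟪X (v k), X (v k)⟫_ℂ := by
    exact ContinuousLinearMap.adjoint_inner_right X (v k) (X (v k))
  rw [h k, inner_smul_right, inner_self_eq_norm_sq_to_K, inner_self_eq_norm_sq_to_K,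
    v.orthonormal.1 k] at h1
  have h2 : ((lam k : ℝ) : ℂ) = ((‖X (v k)‖ ^ 2 : ℝ) : ℂ) := by
    simpa using h1
  exact_mod_cast h2

lemma isSelfAdjoint_star_mul (X : H →L[ℂ] H) : IsSelfAdjoint (star X * X) :=
  IsSelfAdjoint.star_mul_self X

lemma rpow_apply_eigen {N : H →L[ℂ] H} (hN : 0 ≤ N) {q : ℝ} (hq : 0 < q) {v : H}
    {lam : ℝ} (h : N v = (lam : ℂ) • v) : (N ^ q) v = ((lam ^ q : ℝ) : ℂ) • v := by
  rw [CFC.rpow_eq_cfc_real hN]
  exact cfc_apply_eigen (IsSelfAdjoint.of_nonneg hN) h (fun x => x ^ q)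
    (fun x _ => (Real.continuousAt_rpow_const x q (Or.inr hq.le)).continuousWithinAt)

lemma isSelfAdjoint_rpow (N : H →L[ℂ] H) (q : ℝ) : IsSelfAdjoint (N ^ q) :=
  IsSelfAdjoint.of_nonneg CFC.rpow_nonneg

lemma star_mul_nonneg (X : H →L[ℂ] H) : 0 ≤ star X * X := star_mul_self_nonneg X

lemma trAbsPow_eq (b : HilbertBasis ι ℂ H) (v : HilbertBasis κ ℂ H) {X : H →L[ℂ] H} {lam : κ → ℝ}
    (h : ∀ k, (star X * X) (v k) = (lam k : ℂ) • v k) {p : ℝ} (hp : 0 < p) :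
    trAbsPow b p X = ∑' k, ENNReal.ofReal (lam k ^ (p / 2)) := by
  have hl : ∀ k, 0 ≤ lam k := fun k => by rw [eigen_nonneg v h k]; positivity
  exact tsum_trace_eq b v (isSelfAdjoint_rpow _ _) (fun k => Real.rpow_nonneg (hl k) _)
    (fun k => rpow_apply_eigen (star_mul_nonneg X) (by positivity) (h k))

end Pool.Agent.Helper526.Sch
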