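import Pool.Agent.Helper526.Sch.Classes

set_option autoImplicit false
set_option linter.unusedSectionVars false
open scoped InnerProductSpace ENNReal NNReal Topology

namespace Pool.Agent.Helper526.Sch

universe u v w w'

variable {ι : Type v} {κ : Type w} {κ' : Type w'} {H : Type u} [NormedAddCommGroup H]
  [InnerProductSpace ℂ H] [CompleteSpace H]

/-- The matrix unit `e_{ij}` of the basis `b`: the rank one operator `x ↦ ⟪b j, x⟫ b i`. -/
noncomputable def matUnit (b : HilbertBasis ι ℂ H) (i j : ι) : H →L[ℂ] H :=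
  (innerSL ℂ (b j)).smulRight (b i)

lemma matUnit_apply (b : HilbertBasis ι ℂ H) (i j : ι) (x : H) :
    matUnit b i j x = ⟪b j, x⟫_ℂ • b i := by
  simp [matUnit]

lemma inner_basis [DecidableEq ι] (b : HilbertBasis ι ℂ H) (i j : ι) :
    ⟪b i, b j⟫_ℂ = if i = j then 1 else 0 :=
  orthonormal_iff_ite.1 b.orthonormal i j

lemma matUnit_compact (b : HilbertBasis ι ℂ H) (i j : ι) : IsCompactOperator (matUnit b i j) := by
  have h1 : IsCompactOperator (innerSL ℂ (b j)) :=
    isCompactOperator_of_locallyCompactSpace_dom (innerSL ℂ (b j))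
  have h2 := h1.clm_comp (ContinuousLinearMap.toSpanSingleton ℂ (b i))
  have h3 : (matUnit b i j : H → H) =
      (ContinuousLinearMap.toSpanSingleton ℂ (b i)) ∘ (innerSL ℂ (b j)) := by
    funext x
    simp [matUnit_apply]
  rw [h3]
  exact h2

lemma matUnit_star (b : HilbertBasis ι ℂ H) (i j : ι) : star (matUnit b i j) = matUnit b j i := by
  refine ContinuousLinearMap.ext fun y => ?_
  refine ext_inner_left ℂ fun x => ?_
  rw [inner_star_right, matUnit_apply, matUnit_apply, inner_smul_left, inner_smul_right,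
    inner_conj_symm]
  ring

lemma matUnit_mul_same (b : HilbertBasis ι ℂ H) (i j k : ι) :
    matUnit b i j * matUnit b j k = matUnit b i k := by
  classical
  refine ContinuousLinearMap.ext fun y => ?_
  have : (matUnit b i j * matUnit b j k) y = matUnit b i j (matUnit b j k y) := rfl
  rw [this, matUnit_apply, matUnit_apply, matUnit_apply, inner_smul_right, inner_basis b, if_pos rfl,
    mul_one]

lemma matUnit_mul_ne (b : HilbertBasis ι ℂ H) {i j j' k : ι} (h : j ≠ j') :
    matUnit b i j * matUnit b j' k = 0 := by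
  classical
  refine ContinuousLinearMap.ext fun y => ?_
  have : (matUnit b i j * matUnit b j' k) y = matUnit b i j (matUnit b j' k y) := rfl
  rw [this]
  simp [matUnit_apply, b.orthonormal.2 h]

/-- `α e_{ii} + β e_{jj}` -/
noncomputable def dg (b : HilbertBasis ι ℂ H) (i j : ι) (α β : ℂ) : H →L[ℂ] H :=
  α • matUnit b i i + β • matUnit b j j

lemma dg_compact (b : HilbertBasis ι ℂ H) (i j : ι) (α β : ℂ) : IsCompactOperator (dg b i j α β) :=
  ((matUnit_compact b i i).smul α).add ((matUnit_compact b j j).smul β)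

lemma star_dg_mul (b : HilbertBasis ι ℂ H) {i j : ι} (hij : i ≠ j) (α β : ℂ) :
    star (dg b i j α β) * dg b i j α β =
      ((‖α‖ ^ 2 : ℝ) : ℂ) • matUnit b i i + ((‖β‖ ^ 2 : ℝ) : ℂ) • matUnit b j j := by
  have h1 := Complex.normSq_eq_conj_mul_self (z := α)
  have h2 := Complex.normSq_eq_conj_mul_self (z := β)
  rw [Complex.normSq_eq_norm_sq] at h1 h2
  rw [h1, h2]
  unfold dg
  rw [star_add, star_smul, star_smul, matUnit_star, matUnit_star]
  simp only [add_mul, mul_add, smul_mul_smul_comm, matUnit_mul_same, matUnit_mul_ne b hij,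
    matUnit_mul_ne b hij.symm, smul_zero, add_zero, zero_add]
  rfl

lemma trAbsPow_dg (b : HilbertBasis ι ℂ H) {i j : ι} (hij : i ≠ j) (α β : ℂ) {p : ℝ} (hp : 0 < p) :
    trAbsPow b p (dg b i j α β) = ENNReal.ofReal (‖α‖ ^ p) + ENNReal.ofReal (‖β‖ ^ p) := by
  classical
  have hv : ∀ k, (star (dg b i j α β) * dg b i j α β) (b k) =
      (((if k = i then ‖α‖ ^ 2 else 0) + (if k = j then ‖β‖ ^ 2 else 0) : ℝ) : ℂ) • b k := by
    intro k
    rw [star_dg_mul b hij]
    simp only [FunLike.coe_add, Pi.add_apply, FunLike.coe_smul, Pi.smul_apply, matUnit_apply, inner_basis b]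
    by_cases hki : k = i
    · subst hki
      simp [hij, hij.symm]
    · by_cases hkj : k = j
      · subst hkj
        simp [hij, hij.symm]
      · simp [hki, hkj, Ne.symm hki, Ne.symm hkj]
  rw [trAbsPow_eq b b hv hp]
  have hterm : ∀ k, ENNReal.ofReal (((if k = i then ‖α‖ ^ 2 else 0) +
      (if k = j then ‖β‖ ^ 2 else 0)) ^ (p / 2)) =
      (if k = i then ENNReal.ofReal (‖α‖ ^ p) else 0) +
        (if k = j then ENNReal.ofReal (‖β‖ ^ p) else 0) := by
    intro k
    by_cases hki : k = i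
    · subst hki
      simp [hij, rpow_two_mul_half (norm_nonneg α)]
    · by_cases hkj : k = j
      · subst hkj
        simp [hki, rpow_two_mul_half (norm_nonneg β)]
      · simp [hki, hkj, Real.zero_rpow (show p / 2 ≠ 0 by positivity)]
  simp_rw [hterm]
  rw [ENNReal.tsum_add, tsum_ite_eq, tsum_ite_eq]

lemma trAbsPow_matUnit (b : HilbertBasis ι ℂ H) (i j : ι) {p : ℝ} (hp : 0 < p) :
    trAbsPow b p (matUnit b i j) = 1 := by
  classical
  have hv : ∀ k, (star (matUnit b i j) * matUnit b i j) (b k) =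
      ((if k = j then 1 else 0 : ℝ) : ℂ) • b k := by
    intro k
    rw [matUnit_star, matUnit_mul_same, matUnit_apply, inner_basis b]
    by_cases h : k = j
    · subst h; simp
    · simp [h, Ne.symm h]
  rw [trAbsPow_eq b b hv hp]
  have hterm : ∀ k, ENNReal.ofReal ((if k = j then (1 : ℝ) else 0) ^ (p / 2)) =
      if k = j then 1 else 0 := by
    intro k
    by_cases h : k = j
    · simp [h]
    · simp [h, Real.zero_rpow (show p / 2 ≠ 0 by positivity)]
  simp_rw [hterm]
  rw [tsum_ite_eq]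

/-- the matrix unit `e_{ij}` as an element of `𝔖_p` -/
noncomputable def matS (b : HilbertBasis ι ℂ H) (i j : ι) {p : ℝ} (hp : 0 < p) :
    SchattenClass b p hp :=
  mkS hp (matUnit b i j) (matUnit_compact b i j) (by rw [trAbsPow_matUnit b i j hp]; simp)

lemma dg_fin (b : HilbertBasis ι ℂ H) (i j : ι) (α β : ℂ) {p : ℝ} (hp : 0 < p) :
    trAbsPow b p (dg b i j α β) < ∞ :=
  (schatten_add_mem b hp
    (schatten_smul_mem b hp α ⟨matUnit_compact b i i, by rw [trAbsPow_matUnit b i i hp]; simp⟩)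
    (schatten_smul_mem b hp β ⟨matUnit_compact b j j, by rw [trAbsPow_matUnit b j j hp]; simp⟩)).2

/-- `α e_{ii} + β e_{jj}` as an element of `𝔖_p` -/
noncomputable def EE (b : HilbertBasis ι ℂ H) (i j : ι) {p : ℝ} (hp : 0 < p) (α β : ℂ) :
    SchattenClass b p hp :=
  mkS hp (dg b i j α β) (dg_compact b i j α β) (dg_fin b i j α β hp)

/-- The trace pairing `(x, y) = tr (x y)`. -/
noncomputable def trPair (b : HilbertBasis ι ℂ H) (x y : H →L[ℂ] H) : ℂ :=
  ∑' i, ⟪b i, (x * y) (b i)⟫_ℂ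

lemma trPair_matUnit (b : HilbertBasis ι ℂ H) (x : H →L[ℂ] H) (i j : ι) :
    trPair b x (matUnit b j i) = ⟪b i, x (b j)⟫_ℂ := by
  unfold trPair
  have h : ∀ k, ⟪b k, (x * matUnit b j i) (b k)⟫_ℂ = ⟪b i, b k⟫_ℂ * ⟪b k, x (b j)⟫_ℂ := by
    intro k
    have : (x * matUnit b j i) (b k) = x (matUnit b j i (b k)) := rfl
    rw [this, matUnit_apply, map_smul, inner_smul_right]
  simp_rw [h]
  exact (b.hasSum_inner_mul_inner (b i) (x (b j))).tsum_eq

/-! Operators of small Schatten norm -/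

lemma sum_le_real (b : HilbertBasis ι ℂ H) {X : H →L[ℂ] H} (hX : IsCompactOperator (star X * X))
    {p : ℝ} (hp : 1 ≤ p) {C : ℝ} (hC : 0 ≤ C) (htr : trAbsPow b p X ≤ ENNReal.ofReal C) {α : Type*}
    [Fintype α] {e f : α → H} (he : Orthonormal ℂ e) (hf : Orthonormal ℂ f) :
    ∑ i, ‖⟪f i, X (e i)⟫_ℂ‖ ^ p ≤ C := by
  have h := (sum_le_trAbsPow b hX hp he hf).trans htr
  rw [← ENNReal.ofReal_sum_of_nonneg (fun i _ => by positivity)] at h
  exact (ENNReal.ofReal_le_ofReal_iff hC).1 h

lemma norm_apply_le_one (b : HilbertBasis ι ℂ H) {X : H →L[ℂ] H}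
    (hX : IsCompactOperator (star X * X)) {p : ℝ} (hp : 1 ≤ p) (htr : trAbsPow b p X ≤ 1) {x : H}
    (hx : ‖x‖ = 1) : ‖X x‖ ≤ 1 := by
  by_cases h0 : X x = 0
  · rw [h0, norm_zero]; exact zero_le_one
  have hn : 0 < ‖X x‖ := norm_pos_iff.2 h0
  set f : H := ((‖X x‖⁻¹ : ℝ) : ℂ) • X x with hf
  have hf1 : ‖f‖ = 1 := by
    rw [hf, norm_smul, Complex.norm_real, norm_inv, norm_norm]
    field_simp
  have h1 : Orthonormal ℂ (fun _ : Unit => x) :=
    ⟨fun _ => hx, fun i j hij => (hij (Subsingleton.elim i j)).elim⟩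
  have h2 : Orthonormal ℂ (fun _ : Unit => f) :=
    ⟨fun _ => hf1, fun i j hij => (hij (Subsingleton.elim i j)).elim⟩
  have h := sum_le_real b hX hp zero_le_one (by simpa using htr) h1 h2
  simp only [Finset.univ_unique, Finset.sum_const, Finset.card_singleton, one_smul] at h
  have h3 : ⟪f, X x⟫_ℂ = ((‖X x‖ : ℝ) : ℂ) := by
    rw [hf, inner_smul_left, inner_self_eq_norm_sq_to_K, Complex.conj_ofReal]
    have hne : ((‖X x‖ : ℝ) : ℂ) ≠ 0 := by exact_mod_cast hn.ne'
    push_cast
    field_simp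
    rfl
  rw [h3, Complex.norm_real, norm_norm] at h
  by_contra hcon
  rw [not_le] at hcon
  have := Real.one_lt_rpow hcon (by linarith : 0 < p)
  linarith

end Pool.Agent.Helper526.Sch
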